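import Pool.Agent.P.MP_e6b138_co.Euler

/-! F1. From combinatorial maps on darts to three-coloured triangulations. The set of darts carries
the threefold cover of the map on which the edges are coloured by rotation. -/

set_option autoImplicit false

namespace Pool.Agent.P.MP_e6b138_co

open Equiv Equiv.Perm

/-- A cubic bipartite map on darts. -/
structure Dart (T : Type) where
  σ : Perm T
  α : Perm T
  side : T → Bool
  h3 : ∀ x, σ (σ (σ x)) = x
  h2 : ∀ x, α (α x) = x
  sσ : ∀ x, side (σ x) = side x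
  sα : ∀ x, side (α x) = !side x

namespace Dart

variable {T : Type} (D : Dart T)

/-- Rotation by `k` steps, in opposite directions on the two sides. -/
def r (k : Fin 3) (x : T) : T :=
  if k = 0 then x else if (k = 1 ↔ D.side x = true) then D.σ x else D.σ (D.σ x)

theorem side_r (k : Fin 3) (x : T) : D.side (D.r k x) = D.side x := by
  unfold r
  split_ifs <;> simp [D.sσ]

theorem r_zero (x : T) : D.r 0 x = x := if_pos rfl

theorem r_add (k j : Fin 3) (x : T) : D.r k (D.r j x) = D.r (k + j) x := by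
  cases h : D.side x <;> fin_cases k <;> fin_cases j <;> simp [r, h, D.sσ, D.h3]

theorem r_neg (k : Fin 3) (x : T) : D.r (-k) (D.r k x) = x := by
  rw [r_add, neg_add_cancel, r_zero]

theorem r_neg' (k : Fin 3) (x : T) : D.r k (D.r (-k) x) = x := by
  rw [r_add, add_neg_cancel, r_zero]

theorem σ_r (x : T) : ∃ k, D.σ x = D.r k x := by
  cases h : D.side x
  · exact ⟨2, by simp [r, h]⟩
  · exact ⟨1, by simp [r, h]⟩

/-- The covering triangulation. -/
def tri : Tri T where
  s := fun k x => D.r (-k) (D.α (D.r k x))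
  col := D.side
  invol := fun k x => by rw [r_neg', D.h2, r_neg]
  flip := fun k x => by rw [side_r, D.sα, side_r]

theorem tri_s (k : Fin 3) (x : T) : D.tri.s k x = D.r (-k) (D.α (D.r k x)) := rfl

theorem r_s (j k : Fin 3) (x : T) : D.r j (D.tri.s k x) = D.tri.s (k - j) (D.r j x) := by
  rw [tri_s, tri_s, r_add, r_add, sub_add_cancel, neg_sub, sub_eq_add_neg]

/-- A dart of the face that is the vertex of class `k` of `t`. -/
def op (k : Fin 3) : T ≃ T where
  toFun t := D.σ (D.σ (D.r k t))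
  invFun y := D.r (-k) (D.σ y)
  left_inv t := by simp only [D.h3, r_neg]
  right_inv y := by simp only [r_neg', D.h3]

theorem op_apply (k : Fin 3) (t : T) : D.op k t = D.σ (D.σ (D.r k t)) := rfl

theorem op_s0 (i : Fin 3) (hi : i ≠ 0) (t : T) :
    D.op 0 (D.tri.s i t) = (D.σ * D.α) (D.op 0 t) ∨ (D.σ * D.α) (D.op 0 (D.tri.s i t)) = D.op 0 t := by
  have n1 : (-1 : Fin 3) = 2 := rfl
  have n2 : (-2 : Fin 3) = 1 := rfl
  cases h : D.side t <;> fin_cases i <;>
    simp [op_apply, tri_s, r, h, n1, n2, D.sσ, D.sα, D.h3, D.h2] at hi ⊢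

theorem op_next0 (t : T) : ∃ i, i ≠ 0 ∧ D.op 0 (D.tri.s i t) = (D.σ * D.α) (D.op 0 t) := by
  have n1 : (-1 : Fin 3) = 2 := rfl
  have n2 : (-2 : Fin 3) = 1 := rfl
  cases h : D.side t
  · exact ⟨1, by decide, by simp [op_apply, tri_s, r, h, n1, D.sσ, D.sα, D.h3]⟩
  · exact ⟨2, by decide, by simp [op_apply, tri_s, r, h, n2, D.sσ, D.sα, D.h3]⟩

theorem op_eq (k : Fin 3) (t : T) : D.op k t = D.op 0 (D.r k t) := by
  rw [op_apply, op_apply, r_zero]

theorem op_next (k : Fin 3) (t : T) :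
    ∃ i, i ≠ k ∧ D.op k (D.tri.s i t) = (D.σ * D.α) (D.op k t) := by
  obtain ⟨i, hi, e⟩ := D.op_next0 (D.r k t)
  refine ⟨i + k, by simpa using hi, ?_⟩
  rw [op_eq, r_s, add_sub_cancel_right, e, ← op_eq]

theorem same_iff [Finite T] (k : Fin 3) (t u : T) :
    D.tri.same k t u ↔ (D.σ * D.α).SameCycle (D.op k t) (D.op k u) := by
  constructor
  · intro h
    refine Tri.same.ind (p := fun u => (D.σ * D.α).SameCycle (D.op k t) (D.op k u))
      (SameCycle.refl _ _) (fun u i hi _ ih => ?_) h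
    rw [op_eq _ _ (D.tri.s i u), r_s]
    rcases D.op_s0 (i - k) (sub_ne_zero.2 hi) (D.r k u) with e | e
    · rw [e, ← op_eq]
      exact ih.apply_right
    · rw [D.op_eq k u, ← e] at ih
      exact ih.of_apply_right
  · intro h
    obtain ⟨j, -, hj⟩ := h.exists_pow_eq'
    induction j generalizing t with
    | zero => rw [(D.op k).injective hj]; exact Tri.same.refl k u
    | succ j ih =>
      obtain ⟨i, hi, e⟩ := D.op_next k t
      rw [pow_succ, mul_apply, ← e] at hj
      exact (Tri.same.step hi t).trans (ih _ ⟨j, hj⟩ hj)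

theorem conn_r (j : Fin 3) {a b : T} (h : D.tri.conn a b) : D.tri.conn (D.r j a) (D.r j b) :=
  Tri.conn.ind (p := fun b => D.tri.conn (D.r j a) (D.r j b)) (Tri.conn.refl _)
    (fun u i _ ih => by rw [r_s]; exact ih.trans (Tri.conn.step _ _)) h

theorem cover (hc : ∀ x y, ∃ g ∈ Subgroup.closure ({D.σ, D.α} : Set (Perm T)), g x = y)
    (x t : T) : ∃ k, D.tri.conn x (D.r k t) := by
  have h1 : ∀ y, (∃ k, D.tri.conn x (D.r k y)) → ∃ k, D.tri.conn x (D.r k (D.σ y)) := by
    rintro y ⟨k, h⟩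
    obtain ⟨j, e⟩ := D.σ_r y
    exact ⟨k - j, by rwa [e, r_add, sub_add_cancel]⟩
  have h2 : ∀ y, (∃ k, D.tri.conn x (D.r k y)) → ∃ k, D.tri.conn x (D.r k (D.α y)) := by
    rintro y ⟨k, h⟩
    refine ⟨k, ?_⟩
    have := h.trans (Tri.conn.step (-k) _)
    rwa [tri_s, r_neg, neg_neg] at this
  have h3 : ∀ g ∈ Subgroup.closure ({D.σ, D.α} : Set (Perm T)), ∀ y,
      (∃ k, D.tri.conn x (D.r k y)) ↔ ∃ k, D.tri.conn x (D.r k (g y)) := by
    intro g hg
    induction hg using Subgroup.closure_induction with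
    | mem g hg =>
      rcases hg with rfl | rfl
      · exact fun y => ⟨h1 y, fun h => D.h3 y ▸ h1 _ (h1 _ h)⟩
      · exact fun y => ⟨h2 y, fun h => D.h2 y ▸ h2 _ h⟩
    | one => exact fun y => Iff.rfl
    | mul g g' _ _ a b => exact fun y => (b y).trans (a (g' y))
    | inv g _ a => exact fun y => by simpa using (a (g⁻¹ y)).symm
  obtain ⟨g, hg, rfl⟩ := hc x t
  exact (h3 g hg x).1 ⟨0, by rw [r_zero]; exact Tri.conn.refl x⟩

theorem cyc [Finite T] (k : Fin 3) (t : T) {x : T} (h : D.σ.SameCycle (D.r k t) x) :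
    ∃ i, x = D.op i t := by
  obtain ⟨j, -, rfl⟩ := h.exists_pow_eq'
  have h1 : ∀ y, (∃ i, y = D.r i t) → ∃ i, D.σ y = D.r i t := by
    rintro _ ⟨i, rfl⟩
    obtain ⟨l, e⟩ := D.σ_r (D.r i t)
    exact ⟨l + i, by rw [e, r_add]⟩
  have h2 : ∀ j : ℕ, ∃ i, (D.σ ^ j) (D.r k t) = D.r i t := by
    intro j
    induction j with
    | zero => exact ⟨k, rfl⟩
    | succ j ih => rw [pow_succ', mul_apply]; exact h1 _ ih
  obtain ⟨i, e⟩ := h1 _ (h2 j)
  exact ⟨i, by rw [op_apply, ← e, D.h3]⟩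

end Dart

theorem Tri.Good.diamond {T : Type} {M : Tri T} {K : ℕ} {c : Fin 3 → T → Fin K} (g : M.Good K c)
    {k i j : Fin 3} {t a b : T} (ha : a = t ∨ a = M.s k t) (hb : b = t ∨ b = M.s k t)
    (e : c i a = c j b) : i = j ∧ M.same i a b := by
  have h1 : ∀ i j a, c i a = c j a → i = j := fun i j a e => by_contra fun h => g.tri i j a h e
  have h2 : ∀ i j, c i t = c j (M.s k t) → i = j ∧ M.same i t (M.s k t) := by
    intro i j e
    by_cases hj : k = j
    · subst hj
      by_cases hi : k = i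
      · subst hi
        exact ⟨rfl, by_contra fun h => g.diag k t h e⟩
      · rw [← g.inv i k t hi] at e
        exact (hi (h1 _ _ _ e).symm).elim
    · rw [g.inv j k t hj] at e
      obtain rfl := h1 _ _ _ e
      exact ⟨rfl, Tri.same.step hj t⟩
  rcases ha with rfl | rfl <;> rcases hb with rfl | rfl
  · exact ⟨h1 _ _ _ e, Tri.same.refl _ _⟩
  · exact h2 i j e
  · obtain ⟨rfl, h⟩ := h2 j i e.symm
    exact ⟨rfl, h.symm⟩
  · exact ⟨h1 _ _ _ e, Tri.same.refl _ _⟩

theorem Dart.colour {T : Type} [Fintype T] (D : Dart T) {K : ℕ}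
    (h : D.tri.Planar → ∃ c, D.tri.Good K c)
    (hc : ∀ x y, ∃ g ∈ Subgroup.closure ({D.σ, D.α} : Set (Perm T)), g x = y)
    (hE : 6 * Nat.card (Quotient (SameCycle.setoid (D.σ * D.α))) = Fintype.card T + 12) :
    ∃ c : T → Fin K, (∀ x, c ((D.σ * D.α) x) = c x) ∧
      ∀ d x y, (D.σ.SameCycle d x ∨ D.σ.SameCycle (D.α d) x) →
        (D.σ.SameCycle d y ∨ D.σ.SameCycle (D.α d) y) →
        c x = c y → (D.σ * D.α).SameCycle x y := by
  classical
  have hv : 2 * D.tri.nv = Fintype.card T + 12 := by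
    have : ∀ k, Nat.card (Quotient (D.tri.vs k)) =
        Nat.card (Quotient (SameCycle.setoid (D.σ * D.α))) := fun k =>
      Nat.card_congr (Quotient.congr (D.op k) (D.same_iff k))
    unfold Tri.nv
    rw [Fin.sum_univ_three, this, this, this]
    omega
  obtain ⟨x0⟩ : Nonempty T := by
    by_contra hn
    rw [not_nonempty_iff] at hn
    rw [Fintype.card_eq_zero, Nat.card_of_isEmpty] at hE
    omega
  have cov' : ∀ x t, ∃ k, D.tri.conn (D.r k x) t := fun x t => by
    obtain ⟨k, hk⟩ := D.cover hc x t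
    exact ⟨-k, by simpa only [D.r_neg] using D.conn_r (-k) hk⟩
  have hP : D.tri.Planar := by
    refine (Tri.euler_le (Finset.univ.image fun k => D.r k x0) fun t => ?_).2 ?_
    · obtain ⟨k, hk⟩ := cov' x0 t
      exact ⟨_, Finset.mem_image_of_mem _ (Finset.mem_univ k), hk⟩
    · have := Finset.card_image_le (s := (Finset.univ : Finset (Fin 3))) (f := fun k => D.r k x0)
      rw [Finset.card_univ, Fintype.card_fin] at this
      omega
  have nc : ∀ x, ¬ D.tri.conn x (D.r 1 x) := by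
    intro x hx
    have a : ∀ k, D.tri.conn x (D.r k x) := by
      intro k
      fin_cases k
      · exact (D.r_zero x).symm ▸ Tri.conn.refl x
      · exact hx
      · have := D.conn_r 1 hx
        rw [D.r_add] at this
        exact hx.trans this
    have := (Tri.euler_le (M := D.tri) {x} fun t => by
      obtain ⟨k, hk⟩ := cov' x t
      exact ⟨x, Finset.mem_singleton_self x, (a k).trans hk⟩).1
    rw [Finset.card_singleton] at this
    omega
  have uq : ∀ k j t, D.tri.conn x0 (D.r k t) → D.tri.conn x0 (D.r j t) → k = j := by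
    intro k j t a b
    rcases (by decide : ∀ k j : Fin 3, k = j ∨ j = 1 + k ∨ k = 1 + j) k j with e | e | e
    · exact e
    · exact (nc (D.r k t) (by rw [D.r_add, ← e]; exact a.symm.trans b)).elim
    · exact (nc (D.r j t) (by rw [D.r_add, ← e]; exact b.symm.trans a)).elim
  obtain ⟨C, g⟩ := h hP
  choose κ hκ using D.cover hc x0
  have ev : ∀ k t, D.tri.conn x0 t →
      C (-κ (D.σ (D.op k t))) (D.r (κ (D.σ (D.op k t))) (D.σ (D.op k t))) = C k t := by
    intro k t ht
    rw [D.op_apply, D.h3, uq _ (-k) _ (hκ (D.r k t)) (by rwa [D.r_neg]), neg_neg, D.r_neg]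
  refine ⟨fun y => C (-κ (D.σ y)) (D.r (κ (D.σ y)) (D.σ y)), fun y => ?_, fun d x y hx hy e => ?_⟩
  · have e : D.op (-κ (D.σ y)) (D.r (κ (D.σ y)) (D.σ y)) = y := by rw [D.op_apply, D.r_neg, D.h3]
    obtain ⟨i, hi, e'⟩ := D.op_next (-κ (D.σ y)) (D.r (κ (D.σ y)) (D.σ y))
    rw [e] at e'
    have := ev (-κ (D.σ y)) _ ((hκ (D.σ y)).trans (Tri.conn.step i _))
    rw [e', g.inv _ i _ hi] at this
    exact this
  · have key : ∀ x, (D.σ.SameCycle d x ∨ D.σ.SameCycle (D.α d) x) → ∃ i a,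
        (a = D.r (κ d) d ∨ a = D.tri.s (-κ d) (D.r (κ d) d)) ∧ D.tri.conn x0 a ∧ x = D.op i a := by
      rintro x (hx | hx)
      · obtain ⟨i, e⟩ := D.cyc (-κ d) (D.r (κ d) d) (x := x) (by rwa [D.r_neg])
        exact ⟨i, _, Or.inl rfl, hκ d, e⟩
      · obtain ⟨i, e⟩ := D.cyc (-κ d) (D.tri.s (-κ d) (D.r (κ d) d)) (x := x)
          (by rwa [D.tri_s, D.r_neg', D.r_neg])
        exact ⟨i, _, Or.inr rfl, (hκ d).trans (Tri.conn.step _ _), e⟩
    obtain ⟨i, a, a1, a2, rfl⟩ := key x hx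
    obtain ⟨j, b, b1, b2, rfl⟩ := key y hy
    simp only [ev i a a2, ev j b b2] at e
    obtain ⟨rfl, hs⟩ := g.diamond a1 b1 e
    exact (D.same_iff i a b).1 hs

/-- F1. If no minimal counterexample exists, every connected cubic bipartite plane map has an
edge-facial colouring with `K` colours. -/
theorem bridge (K : ℕ) (h : ∀ (T : Type) [Fintype T] (M : Tri T), ¬ M.Minimal K) :
    ∀ (n : ℕ) (σ α : Equiv.Perm (Fin n)),
    (∀ x, σ x ≠ x ∧ σ (σ (σ x)) = x) →
    (∀ x, α x ≠ x ∧ α (α x) = x) →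
    (∀ x y, ∃ g ∈ Subgroup.closure ({σ, α} : Set (Equiv.Perm (Fin n))), g x = y) →
    (∃ side : Fin n → Bool, ∀ x, side (σ x) = side x ∧ side (α x) ≠ side x) →
    6 * Nat.card (Quotient (Equiv.Perm.SameCycle.setoid (σ * α))) = n + 12 →
    ∃ c : Fin n → Fin K, (∀ x, c ((σ * α) x) = c x) ∧
      ∀ d x y, (σ.SameCycle d x ∨ σ.SameCycle (α d) x) →
        (σ.SameCycle d y ∨ σ.SameCycle (α d) y) →
        c x = c y → (σ * α).SameCycle x y := by
  rintro n σ α h1 h2 h3 ⟨side, h4⟩ h5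
  exact Dart.colour ⟨σ, α, side, fun x => (h1 x).2, fun x => (h2 x).2, fun x => (h4 x).1,
    fun x => Bool.eq_not.2 (h4 x).2⟩ (Tri.good_of_no_minimal K (h _) _) h3
    (by rw [Fintype.card_fin]; exact h5)

end Pool.Agent.P.MP_e6b138_co
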