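import Pool.Agent.P.MP_e6b138_co.Side

/-! F2, F3. Planarity and the Euler count. -/

set_option autoImplicit false

namespace Pool.Agent.P.MP_e6b138_co

open Finset Module

namespace Tri

variable {T : Type} (M : Tri T)

/-- Vertices. -/
abbrev Vx := Σ k : Fin 3, Quotient (M.vs k)

/-- Edges, named by their class and their triangle of colour `true`. -/
abbrev Ed := Fin 3 × {t // M.col t = true}

/-- Number of vertices. -/
noncomputable def nv : ℕ := ∑ k, Nat.card (Quotient (M.vs k))

/-- The vertex of class `k` of `t`. -/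
def vx (k : Fin 3) (t : T) : M.Vx := ⟨k, Quotient.mk (M.vs k) t⟩

/-- The edge of class `k` of `t`. -/
def eg (k : Fin 3) (t : T) : M.Ed :=
  (k, if h : M.col t = true then ⟨t, h⟩ else ⟨M.s k t, by simpa [M.flip] using h⟩)

theorem vx_s {k i : Fin 3} (h : i ≠ k) (t : T) : M.vx k (M.s i t) = M.vx k t :=
  congrArg (Sigma.mk k) (Quotient.sound (s := M.vs k) (same.step' h t))

theorem eg_val (k : Fin 3) (t : T) : (M.eg k t).2.1 = t ∨ (M.eg k t).2.1 = M.s k t := by
  unfold eg
  split_ifs
  · exact Or.inl rfl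
  · exact Or.inr rfl

theorem eg_self (e : M.Ed) : M.eg e.1 e.2.1 = e := by
  unfold eg
  rw [dif_pos e.2.2]

theorem eg_s (k : Fin 3) (t : T) : M.eg k (M.s k t) = M.eg k t := by
  unfold eg
  by_cases h : M.col t = true
  · rw [dif_pos h, dif_neg (by simpa [M.flip] using h)]
    simp only [M.invol]
  · rw [dif_neg h, dif_pos (by simpa [M.flip] using h)]

theorem eg_eq {k l : Fin 3} {t x : T} : M.eg l x = M.eg k t ↔ l = k ∧ (x = t ∨ x = M.s k t) := by
  constructor
  · intro h
    have e : l = k := congrArg Prod.fst h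
    subst e
    have e : (M.eg l x).2.1 = (M.eg l t).2.1 := by rw [h]
    refine ⟨rfl, ?_⟩
    rcases M.eg_val l x with a | a <;> rcases M.eg_val l t with b | b <;> rw [a, b] at e
    · exact Or.inl e
    · exact Or.inr e
    · exact Or.inr (M.s_eq_iff.1 e)
    · exact Or.inl (M.s_inj l e)
  · rintro ⟨rfl, rfl | rfl⟩
    · rfl
    · exact M.eg_s l t

/-- Coboundary of a function on the vertices. -/
def d0 : (M.Vx → ZMod 2) →ₗ[ZMod 2] (M.Ed → ZMod 2) where
  toFun a e := a (M.vx (e.1 + 1) e.2.1) + a (M.vx (e.1 + 2) e.2.1)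
  map_add' a b := by funext e; simp only [Pi.add_apply]; ring
  map_smul' c a := by funext e; simp only [Pi.smul_apply, smul_eq_mul, RingHom.id_apply]; ring

/-- Coboundary of a function on the edges. -/
def d1 : (M.Ed → ZMod 2) →ₗ[ZMod 2] (T → ZMod 2) where
  toFun f t := f (M.eg 0 t) + f (M.eg 1 t) + f (M.eg 2 t)
  map_add' a b := by funext e; simp only [Pi.add_apply]; ring
  map_smul' c a := by funext e; simp only [Pi.smul_apply, smul_eq_mul, RingHom.id_apply]; ring

theorem d0_eg (a : M.Vx → ZMod 2) (k : Fin 3) (t : T) :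
    M.d0 a (M.eg k t) = a (M.vx (k + 1) t) + a (M.vx (k + 2) t) := by
  change a (M.vx (k + 1) (M.eg k t).2.1) + a (M.vx (k + 2) (M.eg k t).2.1) = _
  rcases M.eg_val k t with e | e <;> rw [e]
  rw [M.vx_s (succ_ne k).1.symm, M.vx_s (succ_ne k).2.1.symm]

theorem range_le : LinearMap.range M.d0 ≤ LinearMap.ker M.d1 := by
  rintro _ ⟨a, rfl⟩
  funext t
  change M.d0 a (M.eg 0 t) + M.d0 a (M.eg 1 t) + M.d0 a (M.eg 2 t) = 0
  rw [d0_eg, d0_eg, d0_eg]
  change a (M.vx 1 t) + a (M.vx 2 t) + (a (M.vx 2 t) + a (M.vx 0 t)) +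
    (a (M.vx 0 t) + a (M.vx 1 t)) = 0
  linear_combination add_self2 (a (M.vx 0 t)) + add_self2 (a (M.vx 1 t)) + add_self2 (a (M.vx 2 t))

theorem planar_iff : M.Planar ↔ LinearMap.ker M.d1 ≤ LinearMap.range M.d0 := by
  constructor
  · intro h f hf
    obtain ⟨a, a1, a2⟩ := h (fun k t => f (M.eg k t)) (fun k t => by rw [eg_s])
      fun t => congrFun hf t
    refine ⟨fun v => Quotient.lift (s := M.vs v.1) (a v.1) (fun _ _ e => (a1.eq e).symm) v.2, ?_⟩
    funext e
    rw [← M.eg_self e, d0_eg, a2]
    rfl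
  · intro h f f1 f2
    have e : ∀ k t, f k (M.eg k t).2.1 = f k t := fun k t => by
      rcases M.eg_val k t with e | e <;> rw [e]
      exact f1 k t
    obtain ⟨a, ha⟩ := h (x := fun e => f e.1 e.2.1) (by
      funext t
      change f 0 (M.eg 0 t).2.1 + f 1 (M.eg 1 t).2.1 + f 2 (M.eg 2 t).2.1 = 0
      rw [e, e, e, f2])
    refine ⟨fun k t => a (M.vx k t), fun k i t hi => congrArg a (M.vx_s hi t), fun k t => ?_⟩
    rw [← d0_eg, ha]
    exact (e k t).symm

variable [Fintype T]

theorem two_mul_card : 2 * Nat.card {t // M.col t = true} = Fintype.card T := by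
  classical
  have e : {t // M.col t = true} ≃ {t // ¬ M.col t = true} :=
    ⟨fun t => ⟨M.s 0 t.1, by simpa [M.flip] using t.2⟩,
      fun t => ⟨M.s 0 t.1, by simpa [M.flip] using t.2⟩,
      fun t => Subtype.ext (M.invol 0 t.1), fun t => Subtype.ext (M.invol 0 t.1)⟩
  have h1 := Fintype.card_congr e
  have h2 := Fintype.card_subtype_compl fun t => M.col t = true
  have h3 := Fintype.card_subtype_le fun t => M.col t = true
  rw [Nat.card_eq_fintype_card]
  omega

theorem rank0 : finrank (ZMod 2) (LinearMap.range M.d0) + finrank (ZMod 2) (LinearMap.ker M.d0) =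
    M.nv := by
  classical
  have : Fintype M.Vx := Fintype.ofFinite _
  rw [LinearMap.finrank_range_add_finrank_ker, finrank_fintype_fun_eq_card,
    ← Nat.card_eq_fintype_card, Nat.card_sigma]
  rfl

theorem rank1 : finrank (ZMod 2) (LinearMap.range M.d1) + finrank (ZMod 2) (LinearMap.ker M.d1) =
    3 * Nat.card {t // M.col t = true} := by
  classical
  rw [LinearMap.finrank_range_add_finrank_ker, finrank_fintype_fun_eq_card,
    ← Nat.card_eq_fintype_card, Nat.card_prod]
  simp

variable {M}

theorem Planar.euler_nv (hM : M.Planar) [Nonempty T] : Fintype.card T + 2 ≤ 2 * M.nv := by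
  classical
  have : Fintype M.Vx := Fintype.ofFinite _
  have h0 := M.rank0
  have h1 := M.rank1
  have h2 := M.two_mul_card
  have h3 := Submodule.finrank_mono (M.planar_iff.1 hM)
  have h4 : finrank (ZMod 2) (LinearMap.range M.d1) ≤ Fintype.card T := by
    rw [← finrank_fintype_fun_eq_card (R := ZMod 2)]
    exact Submodule.finrank_le _
  have h5 : finrank (ZMod 2) (LinearMap.ker M.d0) ≠ 0 := by
    rw [Ne, Submodule.finrank_eq_zero]
    intro h
    have : (fun _ => 1 : M.Vx → ZMod 2) ∈ LinearMap.ker M.d0 := by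
      funext e
      exact add_self2 1
    rw [h, Submodule.mem_bot] at this
    exact one_ne_zero (congrFun this (M.vx 0 (Classical.arbitrary T)))
  omega

theorem rank_ker0 (R : Finset T) (hR : ∀ t, ∃ r ∈ R, M.conn r t) :
    finrank (ZMod 2) (LinearMap.ker M.d0) ≤ R.card := by
  classical
  let φ : LinearMap.ker M.d0 →ₗ[ZMod 2] ({r // r ∈ R} → ZMod 2) :=
    (LinearMap.funLeft (ZMod 2) (ZMod 2) fun r : {r // r ∈ R} => M.vx 0 r.1).comp
      (LinearMap.ker M.d0).subtype
  have hφ : Function.Injective φ := by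
    rw [injective_iff_map_eq_zero]
    rintro ⟨a, ha⟩ h
    have two : ∀ x y : ZMod 2, x + y = 0 → x = y := by decide
    have e : ∀ k t, a (M.vx k t) = a (M.vx 0 t) := by
      intro k t
      fin_cases k
      · rfl
      · exact (two _ _ ((M.d0_eg a 2 t).symm.trans (congrFun ha _))).symm
      · exact two _ _ ((M.d0_eg a 1 t).symm.trans (congrFun ha _))
    have z : ∀ t, a (M.vx 0 t) = 0 := by
      intro t
      obtain ⟨r, hr, c⟩ := hR t
      refine conn.ind (p := fun t => a (M.vx 0 t) = 0) (congrFun h ⟨r, hr⟩)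
        (fun u i _ ih => ?_) c
      rw [← e (i + 1), M.vx_s (succ_ne i).1.symm, e, ih]
    refine Subtype.ext (funext ?_)
    rintro ⟨k, q⟩
    induction q using Quotient.inductionOn with
    | _ t => exact (e k t).trans (z t)
  have := LinearMap.finrank_le_finrank_of_injective hφ
  rwa [finrank_fintype_fun_eq_card, Fintype.card_coe] at this

theorem rank_range1 (R : Finset T) (hR : ∀ t, ∃ r ∈ R, M.conn r t) :
    Fintype.card T ≤ finrank (ZMod 2) (LinearMap.range M.d1) + R.card := by
  classical
  let S : Finset (T → ZMod 2) := R.image fun r => Pi.single r 1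
  let W := LinearMap.range M.d1 ⊔ Submodule.span (ZMod 2) (S : Set (T → ZMod 2))
  have e : ∀ k t, M.d1 (Pi.single (M.eg k t) 1) = Pi.single t 1 + Pi.single (M.s k t) 1 := by
    intro k t
    funext x
    have h1 : M.d1 (Pi.single (M.eg k t) 1) x =
        ∑ l, (Pi.single (M.eg k t) 1 : M.Ed → ZMod 2) (M.eg l x) := by
      rw [Fin.sum_univ_three]
      rfl
    rw [h1, Finset.sum_eq_single k]
    · simp only [Pi.single_apply, Pi.add_apply, M.eg_eq, true_and]
      by_cases a : x = t
      · subst a
        simp [(M.s_ne k x).symm]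
      · simp [a]
    · intro l _ hl
      rw [Pi.single_apply, if_neg fun h => hl (M.eg_eq.1 h).1]
    · simp
  have h1 : ∀ t, (Pi.single t 1 : T → ZMod 2) ∈ W := by
    intro t
    obtain ⟨r, hr, c⟩ := hR t
    refine conn.ind (p := fun t => (Pi.single t 1 : T → ZMod 2) ∈ W)
      (Submodule.mem_sup_right (Submodule.subset_span (mem_coe.2 (mem_image_of_mem _ hr))))
      (fun u i _ ih => ?_) c
    have : (Pi.single (M.s i u) 1 : T → ZMod 2) =
        M.d1 (Pi.single (M.eg i u) 1) - Pi.single u 1 := by rw [e]; abel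
    rw [this]
    exact W.sub_mem (Submodule.mem_sup_left ⟨_, rfl⟩) ih
  have h2 : W = ⊤ := by
    rw [eq_top_iff]
    intro f _
    rw [pi_eq_sum_univ' f]
    exact W.sum_mem fun t _ => W.smul_mem _ (h1 t)
  have h3 := Submodule.finrank_add_le_finrank_add_finrank (LinearMap.range M.d1)
    (Submodule.span (ZMod 2) (S : Set (T → ZMod 2)))
  have h4 : finrank (ZMod 2) (Submodule.span (ZMod 2) (S : Set (T → ZMod 2))) ≤ S.card :=
    finrank_span_finset_le_card S
  have h5 : S.card ≤ R.card := card_image_le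
  have h6 : finrank (ZMod 2) W = Fintype.card T := by
    rw [h2, finrank_top, finrank_fintype_fun_eq_card]
  change finrank (ZMod 2) W ≤ _ at h3
  omega

/-- F2. Euler inequality for a map with at most `R.card` components, with equality only in the
planar case. -/
theorem euler_le (R : Finset T) (hR : ∀ t, ∃ r ∈ R, M.conn r t) :
    2 * M.nv ≤ Fintype.card T + 4 * R.card ∧
      (Fintype.card T + 4 * R.card ≤ 2 * M.nv → M.Planar) := by
  classical
  have h0 := M.rank0
  have h1 := M.rank1
  have h2 := M.two_mul_card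
  have h3 := Submodule.finrank_mono M.range_le
  have h4 := rank_ker0 R hR
  have h5 := rank_range1 R hR
  refine ⟨by omega, fun h => M.planar_iff.2 ?_⟩
  exact (Submodule.eq_of_le_of_finrank_le M.range_le (by omega)).ge

theorem deg_pos (k : Fin 3) (t : T) : 0 < M.deg k t := by
  classical
  unfold deg
  exact card_pos.2 ⟨t, by simpa using same.refl k t⟩

theorem deg_eq {k : Fin 3} {t u : T} (h : M.same k t u) : M.deg k t = M.deg k u := by
  classical
  unfold deg
  congr 1
  ext x
  simp only [mem_filter, mem_univ, true_and]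
  exact ⟨fun a => h.symm.trans a, fun a => h.trans a⟩

theorem sum_inv_deg (k : Fin 3) :
    ∑ t, (1 / M.deg k t : ℚ) = Nat.card (Quotient (M.vs k)) := by
  classical
  have : Fintype (Quotient (M.vs k)) := Fintype.ofFinite _
  rw [← sum_fiberwise univ (Quotient.mk (M.vs k)), Nat.card_eq_fintype_card, ← card_univ,
    card_eq_sum_ones, Nat.cast_sum]
  refine sum_congr rfl fun q _ => ?_
  induction q using Quotient.inductionOn with
  | _ t =>
    have e : (univ.filter fun x => Quotient.mk (M.vs k) x = Quotient.mk (M.vs k) t) =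
        univ.filter fun x => M.same k t x := by
      ext x
      simp only [mem_filter, mem_univ, true_and, Quotient.eq]
      exact ⟨same.symm, same.symm⟩
    rw [e, sum_congr rfl fun x hx => by rw [← deg_eq (mem_filter.1 hx).2], sum_const, nsmul_eq_mul]
    have : (M.deg k t : ℚ) ≠ 0 := by exact_mod_cast (deg_pos k t).ne'
    have e2 : (univ.filter fun x => M.same k t x).card = M.deg k t := by
      unfold deg
      congr
    rw [e2]
    simp [this]

theorem Planar.euler_all (hM : M.Planar) [Nonempty T] :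
    0 < ∑ t, ∑ k, (6 / M.deg k t - 1 : ℚ) := by
  have h : ((Fintype.card T + 2 : ℕ) : ℚ) ≤ (2 * M.nv : ℕ) := by exact_mod_cast hM.euler_nv
  have e : ∑ t, ∑ k, (6 / M.deg k t - 1 : ℚ) = 6 * M.nv - 3 * Fintype.card T := by
    rw [sum_comm]
    simp only [sum_sub_distrib, nv, Nat.cast_sum, ← sum_inv_deg, mul_sum, mul_one_div]
    simp
  rw [e]
  push_cast at h
  linarith

/-- Restriction to a union of components. -/
def res (M : Tri T) (p : T → Prop) (hp : ∀ i x, p x → p (M.s i x)) : Tri {x // p x} where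
  s := fun i x => ⟨M.s i x.1, hp i x.1 x.2⟩
  col := fun x => M.col x.1
  invol := fun i x => Subtype.ext (M.invol i x.1)
  flip := fun i x => M.flip i x.1

omit [Fintype T] in
theorem Planar.res (hM : M.Planar) (p : T → Prop) (hp : ∀ i x, p x → p (M.s i x)) :
    (M.res p hp).Planar := by
  classical
  intro f f1 f2
  obtain ⟨a, a1, a2⟩ := hM (fun k x => if h : p x then f k ⟨x, h⟩ else 0)
    (fun k x => by
      by_cases h : p x
      · simp only [h, hp k x h, dif_pos]
        exact f1 k ⟨x, h⟩
      · rw [dif_neg h, dif_neg fun a => h (M.invol k x ▸ hp k _ a)])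
    (fun x => by
      by_cases h : p x
      · simp only [h, dif_pos, f2]
      · simp only [h, dif_neg, not_false_eq_true, add_zero])
  refine ⟨fun k x => a k x.1, fun k i x hi => a1 k i x.1 hi, fun k x => ?_⟩
  simpa only [x.2, dif_pos] using a2 k x.1

theorem deg_res (p : T → Prop) (hp : ∀ i x, p x → p (M.s i x)) [Fintype {x // p x}] (k : Fin 3)
    (x : {x // p x}) : (M.res p hp).deg k x = M.deg k x.1 := by
  classical
  unfold deg
  rw [← card_map (Function.Embedding.subtype p)]
  congr 1
  ext y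
  simp only [mem_map, mem_filter, mem_univ, true_and, Function.Embedding.subtype_apply]
  constructor
  · rintro ⟨z, hz, rfl⟩
    exact same.ind (p := fun z : {x // p x} => M.same k x.1 z.1) (same.refl _ _)
      (fun u i hi _ ih => ih.tail hi) hz
  · intro h
    refine same.ind (p := fun y => ∃ z : {x // p x}, (M.res p hp).same k x z ∧ z.1 = y)
      ⟨x, same.refl _ _, rfl⟩ ?_ h
    rintro u i hi - ⟨z, hz, rfl⟩
    exact ⟨_, hz.tail hi, rfl⟩

open Classical in
/-- F3. The total charge outside the trivial components is positive. -/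
theorem Planar.euler (hM : M.Planar) {t0 : T} (h0 : ¬ M.theta t0) :
    0 < ∑ t ∈ univ.filter (fun t => ¬ M.theta t), ∑ k, (6 / M.deg k t - 1 : ℚ) := by
  have hp : ∀ i x, ¬ M.theta x → ¬ M.theta (M.s i x) := fun i x h a => h a.of_s
  have : Nonempty {x // ¬ M.theta x} := ⟨⟨t0, h0⟩⟩
  have := (hM.res _ hp).euler_all
  simp only [deg_res] at this
  rwa [sum_subtype (p := fun t => ¬ M.theta t) _ (by simp)]

end Tri

end Pool.Agent.P.MP_e6b138_co
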