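import Pool.Agent.P.MP_e6b138_co.Simple

/-! F6. A minimal counterexample has no separating triangle. -/

set_option autoImplicit false

namespace Pool.Agent.P.MP_e6b138_co

namespace Tri

variable {T : Type} {M : Tri T}

/-- `X` is one side of the cut along the closed walk formed by the `k`-edges of the `a k`. -/
structure Cut3 (M : Tri T) (a : Fin 3 → T) (X : T → Prop) : Prop where
  ha : ∀ k, X (a k)
  hb : ∀ k, ¬ X (M.s k (a k))
  col : ∀ k, M.col (a k) = M.col (a 0)
  cl : ∀ k x, x ≠ a k → X x → X (M.s k x)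
  sm : ∀ k i j, i ≠ k → j ≠ k → M.same k (a i) (a j)

namespace Cut3

variable {a : Fin 3 → T} {X : T → Prop}

theorem symm (h : M.Cut3 a X) : M.Cut3 (fun k => M.s k (a k)) fun x => ¬ X x where
  ha := h.hb
  hb := fun k => by rw [M.invol]; exact not_not.2 (h.ha k)
  col := fun k => by rw [M.flip, M.flip, h.col]
  cl := fun k x h1 hx hs => hx (M.invol k x ▸ h.cl k _ (fun e => h1 (M.s_eq_iff.1 e)) hs)
  sm := fun k i j hi hj => ((same.step' hi _).trans (h.sm k i j hi hj)).tail hj

theorem exit (h : M.Cut3 a X) {l : Fin 3} {x : T} (h1 : X x) (h2 : ¬ X (M.s l x)) : x = a l :=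
  by_contra fun hc => h2 (h.cl l x hc h1)

theorem enter (h : M.Cut3 a X) {l : Fin 3} {x : T} (h1 : ¬ X x) (h2 : X (M.s l x)) :
    x = M.s l (a l) := h.symm.exit h1 (not_not.2 h2)

open Classical in
/-- The new reflections. -/
noncomputable def gs (M : Tri T) (a : Fin 3 → T) (X : T → Prop) (l : Fin 3) (x : T) : T :=
  if X x then (if X (M.s l x) then M.s l x else M.s 0 (a 0))
  else if x = M.s 0 (a 0) then a l else M.s 0 x

theorem gs_in {l : Fin 3} {x : T} (h1 : X x) (h2 : X (M.s l x)) : gs M a X l x = M.s l x := by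
  simp only [gs, h1, h2, if_true]

theorem gs_out {l : Fin 3} {x : T} (h1 : ¬ X x) (h2 : x ≠ M.s 0 (a 0)) :
    gs M a X l x = M.s 0 x := by
  simp only [gs, h1, h2, if_false]

theorem gs_a (h : M.Cut3 a X) (l : Fin 3) : gs M a X l (a l) = M.s 0 (a 0) := by
  simp only [gs, h.ha l, h.hb l, if_true, if_false]

theorem gs_b (h : M.Cut3 a X) (l : Fin 3) : gs M a X l (M.s 0 (a 0)) = a l := by
  simp only [gs, h.hb 0, if_true, if_false]

theorem out (h : M.Cut3 a X) {x : T} (h1 : ¬ X x) (h2 : x ≠ M.s 0 (a 0)) :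
    ¬ X (M.s 0 x) ∧ M.s 0 x ≠ M.s 0 (a 0) :=
  ⟨h.symm.cl 0 x h2 h1, fun e => h1 (M.s_inj 0 e ▸ h.ha 0)⟩

/-- The side `X` closed by a new triangle, the other side replaced by trivial components. -/
noncomputable def cap (h : M.Cut3 a X) : Tri T where
  s := gs M a X
  col := M.col
  invol := by
    intro l x
    by_cases h1 : X x
    · by_cases h2 : X (M.s l x)
      · rw [gs_in h1 h2, gs_in h2 (by rwa [M.invol]), M.invol]
      · rw [h.exit h1 h2, h.gs_a, h.gs_b]
    · by_cases h2 : x = M.s 0 (a 0)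
      · rw [h2, h.gs_b, h.gs_a]
      · rw [gs_out h1 h2, gs_out (h.out h1 h2).1 (h.out h1 h2).2, M.invol]
  flip := by
    intro l x
    by_cases h1 : X x
    · by_cases h2 : X (M.s l x)
      · rw [gs_in h1 h2, M.flip]
      · rw [h.exit h1 h2, h.gs_a, M.flip, h.col l]
    · by_cases h2 : x = M.s 0 (a 0)
      · rw [h2, h.gs_b, M.flip, h.col l, Bool.not_not]
      · rw [gs_out h1 h2, M.flip]

theorem cap_s (h : M.Cut3 a X) : h.cap.s = gs M a X := rfl

theorem same_of (h : M.Cut3 a X) {m : Fin 3} {x y : T} (h1 : X x) (h2 : h.cap.same m x y) :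
    (X y ∧ M.same m x y) ∨ (y = M.s 0 (a 0) ∧ ∀ l, l ≠ m → M.same m x (a l)) := by
  refine same.ind (p := fun y => (X y ∧ M.same m x y) ∨
    (y = M.s 0 (a 0) ∧ ∀ l, l ≠ m → M.same m x (a l))) (Or.inl ⟨h1, same.refl m x⟩)
    (fun y i hi _ ih => ?_) h2
  rw [cap_s]
  rcases ih with ⟨b1, b2⟩ | ⟨rfl, b2⟩
  · by_cases h3 : X (M.s i y)
    · rw [gs_in b1 h3]
      exact Or.inl ⟨h3, b2.tail hi⟩
    · rw [h.exit b1 h3] at b2 ⊢
      exact Or.inr ⟨h.gs_a i, fun l hl => b2.trans (h.sm m i l hi hl)⟩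
  · rw [h.gs_b]
    exact Or.inl ⟨h.ha i, b2 i hi⟩

theorem same_in (h : M.Cut3 a X) {m : Fin 3} {x y : T} (h1 : X x) (h3 : X y)
    (h2 : h.cap.same m x y) : M.same m x y := by
  rcases h.same_of h1 h2 with b | ⟨rfl, -⟩
  · exact b.2
  · exact (h.hb 0 h3).elim

theorem planar (h : M.Cut3 a X) (hM : M.Planar) : h.cap.Planar := by
  classical
  refine planar_of_off (fun x => ¬ X x ∧ x ≠ M.s 0 (a 0)) (fun x hx i j => ?_)
    (fun x i hx => ?_) fun f f1 f2 => ?_
  · rw [cap_s, gs_out hx.1 hx.2, gs_out hx.1 hx.2]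
  · rw [cap_s, gs_out hx.1 hx.2]
    exact h.out hx.1 hx.2
  · rw [cap_s] at f1 ⊢
    have key : ∀ l, f l (M.s 0 (a 0)) = f l (a l) := fun l => by rw [← f1 l (a l), h.gs_a]
    obtain ⟨g, a1, a2⟩ := hM (fun l x => if X x then f l x else f l (M.s 0 (a 0)))
      (fun l x => by
        by_cases h1 : X x <;> by_cases h2 : X (M.s l x) <;> simp only [h1, h2, if_true, if_false]
        · rw [← gs_in (a := a) h1 h2, f1]
        · rw [h.exit h1 h2, key]
        · rw [h.enter h1 h2, M.invol, key])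
      (fun x => by
        by_cases h1 : X x <;> simp only [h1, if_true, if_false, f2])
    have e : ∀ m l, l ≠ m → g m (a (m + 1)) = g m (a l) := fun m l hl =>
      a1.eq (h.sm m l (m + 1) hl (succ_ne m).1)
    refine ⟨fun m x => if X x then g m x else g m (a (m + 1)), fun m l x hl hx => ?_,
      fun m x hx => ?_⟩
    · by_cases h1 : X x
      · by_cases h2 : X (M.s l x)
        · simp only [gs_in h1 h2, h1, h2, if_true]
          exact a1 m l x hl
        · rw [h.exit h1 h2, h.gs_a]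
          simp only [h.ha l, h.hb 0, if_true, if_false]
          exact e m l hl
      · have h2 : x = M.s 0 (a 0) := by_contra fun hc => hx ⟨h1, hc⟩
        rw [h2, h.gs_b]
        simp only [h.ha l, h.hb 0, if_true, if_false]
        exact (e m l hl).symm
    · by_cases h1 : X x
      · simpa only [h1, if_true] using a2 m x
      · have h2 : x = M.s 0 (a 0) := by_contra fun hc => hx ⟨h1, hc⟩
        have := a2 m (a m)
        simp only [h.ha m, if_true] at this
        simp only [h1, if_false]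
        rw [h2, key, this, e _ m (succ_ne m).1.symm, e _ m (succ_ne m).2.1.symm]

theorem not_theta (h : M.Cut3 a X) (hA : ¬ ∀ i j, a i = a j) (k : Fin 3) : ¬ M.theta (a k) := by
  intro ht
  have : ∀ j, a k = a j := fun j => h.exit (h.ha k) (ht k j ▸ h.hb k)
  exact hA fun i j => (this i).symm.trans (this j)

theorem mu_lt [Fintype T] (h : M.Cut3 a X) (hA : ¬ ∀ i j, a i = a j)
    (hB : ¬ ∀ i j, M.s i (a i) = M.s j (a j)) : h.cap.mu < M.mu := by
  obtain ⟨j, hj⟩ : ∃ j, M.s j (a j) ≠ M.s 0 (a 0) := by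
    by_contra hc
    push Not at hc
    exact hB fun i j => (hc i).trans (hc j).symm
  refine Tri.mu_lt (t := M.s j (a j)) (fun x hx i l => ?_) (h.symm.not_theta hB j) fun i l => ?_
  · rw [cap_s]
    by_cases h1 : X x
    · have : ∀ l, X (M.s l x) := fun l => by_contra fun hc =>
        h.not_theta hA l (h.exit h1 hc ▸ hx)
      rw [gs_in h1 (this i), gs_in h1 (this l), hx i l]
    · have h2 : x ≠ M.s 0 (a 0) := fun e => h.symm.not_theta hB 0 (e ▸ hx)
      rw [gs_out h1 h2, gs_out h1 h2]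
  · rw [cap_s, gs_out (h.hb j) hj, gs_out (h.hb j) hj]

theorem apex [Fintype T] {K : ℕ} (h : M.Cut3 a X) (hM : M.Minimal K) (hK : 5 ≤ K)
    (hA : ¬ ∀ i j, a i = a j) (k : Fin 3) : ¬ h.cap.same k (a k) (h.cap.s k (a k)) := by
  rw [cap_s, h.gs_a]
  intro hs
  rcases h.same_of (h.ha k) hs with b | ⟨-, b⟩
  · exact h.hb 0 b.1
  · have : ∀ l, a k = a l := fun l => by
      by_cases hl : l = k
      · rw [hl]
      · obtain ⟨m, m1, m2, -⟩ := third hl
        exact hM.simple hK m2.symm (h.not_theta hA k) (b l hl) (h.sm m k l m2.symm m1.symm)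
          ((h.col l).trans (h.col k).symm)
    exact hA fun i j => (this i).symm.trans (this j)

theorem good [Fintype T] {K : ℕ} (h : M.Cut3 a X) (hM : M.Minimal K) (hK : 7 ≤ K)
    (hA : ¬ ∀ i j, a i = a j) (hB : ¬ ∀ i j, M.s i (a i) = M.s j (a j)) : False := by
  obtain ⟨c1, g1⟩ := hM.min _ (h.planar hM.planar) (h.mu_lt hA hB)
  obtain ⟨c2, g2⟩ := hM.min _ (h.symm.planar hM.planar)
    (h.symm.mu_lt hB (by simpa only [M.invol] using hA))
  have e1 : ∀ m l, l ≠ m → c1 m (M.s 0 (a 0)) = c1 m (a l) := fun m l hm => by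
    rw [← g1.inv m l (a l) hm, cap_s, h.gs_a]
  have e2 : ∀ m l, l ≠ m → c2 m (M.s 0 (M.s 0 (a 0))) = c2 m (M.s l (a l)) := fun m l hm => by
    rw [← g2.inv m l (M.s l (a l)) hm, cap_s, h.symm.gs_a]
  have e3 : ∀ k m, c2 k (M.s k (a k)) ≠ c2 m (M.s 0 (M.s 0 (a 0))) := fun k m => by
    by_cases hm : k = m
    · subst hm
      have := g2.diag k _ (h.symm.apex hM (by omega) hB k)
      rwa [cap_s, h.symm.gs_a] at this
    · rw [e2 m k hm]
      exact g2.tri _ _ _ hm
  obtain ⟨π, p1, p2⟩ := exists_perm_match (ι := Fin 3)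
    (fun m => c2 m (M.s 0 (M.s 0 (a 0)))) (fun m => c1 m (M.s 0 (a 0)))
    (fun a b e => by_contra fun hne => g2.tri _ _ _ hne e)
    (fun a b e => by_contra fun hne => g1.tri _ _ _ hne e)
    (List.ofFn fun k => (c2 k (M.s k (a k)), c1 k (a k)))
    (by
      intro e he m
      obtain ⟨k, rfl⟩ := List.mem_ofFn.1 he
      exact e3 k m)
    (by simp; omega)
  refine hM.bad (good_of_sides X g1 (g2.perm π) (fun l x a b => gs_in a b)
    (fun l x b1 b2 => by rw [cap_s]; exact gs_in (X := fun x => ¬ X x) b1 b2)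
    (fun l x y a b => h.same_in a b)
    (fun l x y a b => h.symm.same_in a b) fun l x b1 b2 => ?_)
  rw [h.exit b1 b2]
  exact ⟨fun m hm => by rw [← e2 m l hm, ← e1 m l hm]; exact p1 m,
    p2 (_, _) (List.mem_ofFn.2 ⟨l, rfl⟩)⟩

end Cut3

variable [Fintype T] {K : ℕ}

theorem Minimal.face_aux (hM : M.Minimal K) (hK : 7 ≤ K) (a : Fin 3 → T)
    (hc : ∀ k, M.col (a k) = M.col (a 0))
    (h : ∀ k i j, i ≠ k → j ≠ k → M.same k (a i) (a j)) :
    (∀ i j, a i = a j) ∨ ∀ i j, M.s i (a i) = M.s j (a j) := by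
  by_contra hn
  rw [not_or] at hn
  obtain ⟨X, x1, x2, x3⟩ := hM.planar.side3 a h
  have ha : ∀ k, X (a k) := by
    intro k
    rcases balance X k 0 x1 ((x2 0).1 x1) with ⟨x, b1, b2, b3⟩ | ⟨x, b1, b2, b3⟩
    · refine (b3 ((x3 0 x (M.ne_of_col b2) ?_).1 b1)).elim
      rintro rfl
      exact (x2 0).1 x1 b1
    · by_contra hk
      refine b3 ((x3 k x ?_ ?_).1 b1)
      · rintro rfl
        exact hk b1
      · exact M.ne_of_col (by rw [M.flip, hc, Bool.not_not, b2])
  refine Cut3.good (a := a) (X := X) ⟨ha, fun k => (x2 k).1 (ha k), hc, fun k x b1 b2 => ?_, h⟩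
    hM hK hn.1 hn.2
  refine (x3 k x b1 ?_).1 b2
  rintro rfl
  exact (x2 k).1 (ha k) b2

/-- F6. If the `k`-edges of the `a k` form a closed walk, they bound a triangle. -/
theorem Minimal.face (hM : M.Minimal K) (hK : 7 ≤ K) (a : Fin 3 → T)
    (h0 : M.same 0 (a 1) (a 2)) (h1 : M.same 1 (a 2) (a 0)) (h2 : M.same 2 (a 0) (a 1)) :
    ∃ t, ∀ k, t = a k ∨ t = M.s k (a k) := by
  have h : ∀ k i j, i ≠ k → j ≠ k → M.same k (a i) (a j) := by
    intro k i j hi hj
    fin_cases k <;> fin_cases i <;> fin_cases j <;>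
      first
        | exact absurd rfl hi
        | exact absurd rfl hj
        | exact same.refl _ _
        | assumption
        | exact same.symm (by assumption)
  let b : Fin 3 → T := fun k => if M.col (a k) = true then a k else M.s k (a k)
  have b1 : ∀ k, M.col (b k) = true := fun k => by
    by_cases hk : M.col (a k) = true
    · simp only [b, hk, if_true]
    · simp only [b, hk]
      simpa [M.flip] using hk
  have b2 : ∀ k, b k = a k ∨ b k = M.s k (a k) := fun k => by
    by_cases hk : M.col (a k) = true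
    · exact Or.inl (if_pos hk)
    · exact Or.inr (if_neg hk)
  have b3 : ∀ k i, i ≠ k → M.same k (a i) (b i) := fun k i hi => by
    rcases b2 i with e | e <;> rw [e]
    · exact same.refl _ _
    · exact same.step hi _
  rcases hM.face_aux hK b (fun k => (b1 k).trans (b1 0).symm)
    (fun k i j hi hj => ((b3 k i hi).symm.trans (h k i j hi hj)).trans (b3 k j hj)) with e | e
  · exact ⟨b 0, fun k => e k 0 ▸ b2 k⟩
  · refine ⟨M.s 0 (b 0), fun k => ?_⟩
    rw [e 0 k]
    rcases b2 k with e' | e' <;> rw [e']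
    · exact Or.inr rfl
    · exact Or.inl (M.invol _ _)

end Tri

end Pool.Agent.P.MP_e6b138_co
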