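import Pool.Agent.P.MP_e6b138_co.Simple

/-! F7. Collapsing diamonds and pulling the colouring back. -/

set_option autoImplicit false

namespace Pool.Agent.P.MP_e6b138_co

namespace Tri

variable {T : Type}

open Classical in
/-- The diamond `t, s k t` is cut out (it becomes a trivial component) and the hole is closed by
identifying the two apexes. -/
noncomputable def collapse (M : Tri T) (k : Fin 3) (t : T) : Tri T where
  s := fun l x => Equiv.swap (M.s l t) (M.s k t) (M.s l (Equiv.swap (M.s l t) (M.s k t) x))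
  col := M.col
  invol := fun l x => by rw [Equiv.swap_apply_self, M.invol, Equiv.swap_apply_self]
  flip := fun l x => by
    have : ∀ y, M.col (Equiv.swap (M.s l t) (M.s k t) y) = M.col y := fun y => by
      rw [Equiv.swap_apply_def]
      split_ifs with h1 h2
      · rw [h1, M.flip, M.flip]
      · rw [h2, M.flip, M.flip]
      · rfl
    rw [this, M.flip, this]

/-- The diamond. -/
def dm (M : Tri T) (k : Fin 3) (t x : T) : Prop := x = t ∨ x = M.s k t

variable {M : Tri T} {k : Fin 3} {t : T}

theorem dm_s {x : T} (h : M.dm k t x) : M.dm k t (M.s k x) := by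
  rcases h with rfl | rfl
  · exact Or.inr rfl
  · exact Or.inl (M.invol _ _)

theorem dm_s' {x : T} (h : ¬ M.dm k t x) : ¬ M.dm k t (M.s k x) := fun a =>
  h (M.invol k x ▸ dm_s a)

theorem col_k (x : T) : (M.collapse k t).s k x = M.s k x := by
  simp [collapse]

open Classical in
theorem col_t (l : Fin 3) : (M.collapse k t).s l t = M.s k t := by
  simp only [collapse]
  rw [Equiv.swap_apply_of_ne_of_ne (M.s_ne l t).symm (M.s_ne k t).symm, Equiv.swap_apply_left]

open Classical in
theorem col_n (l : Fin 3) : (M.collapse k t).s l (M.s l t) = M.s l (M.s k t) := by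
  simp only [collapse]
  rw [Equiv.swap_apply_left, Equiv.swap_apply_of_ne_of_ne]
  · exact M.ne_of_col (by rw [M.flip, M.flip k, M.flip l])
  · exact M.s_ne _ _

theorem col_in (l : Fin 3) {x : T} (h : M.dm k t x) : (M.collapse k t).s l x = M.s k x := by
  rcases h with rfl | rfl
  · exact col_t l
  · rw [M.invol, s_eq_iff, col_t]

open Classical in
theorem col_out {l : Fin 3} {x : T} (h1 : ¬ M.dm k t x) (h2 : ¬ M.dm k t (M.s l x)) :
    (M.collapse k t).s l x = M.s l x := by
  simp only [dm, not_or] at h1 h2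
  simp only [collapse]
  rw [Equiv.swap_apply_of_ne_of_ne (fun e => h2.1 (M.s_eq_iff.2 e)) h1.2,
    Equiv.swap_apply_of_ne_of_ne (fun e => h1.1 (M.s_inj l e)) h2.2]

theorem col_bd {l : Fin 3} {x : T} (h2 : M.dm k t (M.s l x)) :
    (M.collapse k t).s l x = M.s l (M.s k (M.s l x)) := by
  rcases h2 with e | e
  · rw [e, M.s_eq_iff.1 e, col_n]
  · rw [e, M.invol, M.s_eq_iff.1 e, s_eq_iff, col_n]

theorem dm_exit (h : ¬ M.same k t (M.s k t)) {l : Fin 3} (hl : l ≠ k) {x : T} (hx : M.dm k t x) :
    ¬ M.dm k t (M.s l x) := by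
  rcases hx with rfl | rfl
  · rintro (e | e)
    · exact M.s_ne _ _ e
    · exact h (e ▸ same.step hl x)
  · rintro (e | e)
    · exact h (M.s_eq_iff.1 e ▸ same.step hl t)
    · exact M.s_ne _ _ e

theorem sum3 (g : Fin 3 → ZMod 2) (k : Fin 3) : g 0 + g 1 + g 2 = g k + g (k + 1) + g (k + 2) := by
  fin_cases k
  · rfl
  · change _ = g 1 + g 2 + g 0
    ring
  · change _ = g 2 + g 0 + g 1
    ring

theorem Planar.collapse (hM : M.Planar) (h : ¬ M.same k t (M.s k t)) :
    (M.collapse k t).Planar := by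
  classical
  obtain ⟨n1, n2, n3⟩ := succ_ne k
  refine planar_of_off (M.dm k t) (fun x hx i j => ?_) (fun x i hx => ?_) fun f f1 f2 => ?_
  · rw [col_in i hx, col_in j hx]
  · rw [col_in i hx]
    exact dm_s hx
  · have key : ∀ l x, M.dm k t x → f l (M.s l x) = f l (M.s l t) := by
      rintro l x (rfl | rfl)
      · rfl
      · rw [← col_n, f1]
    obtain ⟨a, a1, a2⟩ := hM (fun l x => if M.dm k t x then
        (if l = k then f (k + 1) (M.s (k + 1) t) + f (k + 2) (M.s (k + 2) t) else f l (M.s l t))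
        else f l x)
      (fun l x => by
        by_cases h1 : M.dm k t x <;> by_cases h2 : M.dm k t (M.s l x) <;>
          simp only [h1, h2, if_true, if_false]
        · rw [if_neg, key l x h1]
          rintro rfl
          exact h2 (dm_s h1)
        · rw [if_neg, ← key l _ h2, M.invol]
          rintro rfl
          exact dm_s' h1 h2
        · rw [← col_out h1 h2, f1])
      (fun x => by
        by_cases h1 : M.dm k t x
        · rw [sum3 (fun l => if M.dm k t x then
            (if l = k then f (k + 1) (M.s (k + 1) t) + f (k + 2) (M.s (k + 2) t)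
              else f l (M.s l t)) else f l x) k]
          simp only [h1, if_true, n1, n2, if_false]
          linear_combination add_self2 (f (k + 1) (M.s (k + 1) t)) +
            add_self2 (f (k + 2) (M.s (k + 2) t))
        · simp only [h1, if_false, f2])
    have e : ∀ m y, M.dm k t y → a m (M.s k y) = a m y := by
      intro m y hy
      by_cases hm : k = m
      · subst hm
        have b1 := a2 (k + 1) y
        have b2 := a2 (k + 1) (M.s k y)
        have b3 : k + 1 + 2 = k := (by decide : ∀ k : Fin 3, k + 1 + 2 = k) k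
        have b4 : k ≠ k + 1 + 1 := (by decide : ∀ k : Fin 3, k ≠ k + 1 + 1) k
        simp only [hy, dm_s hy, if_true, b3, a1 _ k y b4] at b1 b2
        exact add_left_cancel (b2.symm.trans b1)
      · exact a1 m k y hm
    refine ⟨a, fun m l x hl hx => ?_, fun m x hx => by simpa only [hx, if_false] using a2 m x⟩
    by_cases h2 : M.dm k t (M.s l x)
    · rw [col_bd h2, a1 m l _ hl, e m _ h2, a1 m l _ hl]
    · rw [col_out hx h2, a1 m l _ hl]

theorem theta_collapse (h : ¬ M.same k t (M.s k t)) (x : T) (hx : M.theta x) :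
    (M.collapse k t).theta x := by
  have : ∀ y, M.theta y → ¬ M.dm k t y := by
    rintro y hy (rfl | rfl)
    · exact h (hy.same k)
    · exact h (hy.of_s.same k)
  intro i j
  rw [col_out (this x hx) (this _ (hx.s i)), col_out (this x hx) (this _ (hx.s j)), hx i j]

theorem same_collapse_ne {j : Fin 3} (hj : j ≠ k) {x y : T} (h : (M.collapse k t).same j x y) :
    M.same j x y := by
  refine same.ind (p := fun y => M.same j x y) (same.refl j x) (fun y l hl _ ih => ?_) h
  by_cases h1 : M.dm k t y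
  · rw [col_in l h1]
    exact ih.tail hj.symm
  · by_cases h2 : M.dm k t (M.s l y)
    · rw [col_bd h2]
      exact ((ih.tail hl).tail hj.symm).tail hl
    · rw [col_out h1 h2]
      exact ih.tail hl

theorem same_collapse_eq {x y : T} (h : (M.collapse k t).same k x y) :
    M.same k x y ∨ ((∃ d, M.dm k t d ∧ M.same k x d) ∧ ∃ d, M.dm k t d ∧ M.same k y d) := by
  refine same.ind (p := fun y => M.same k x y ∨
    ((∃ d, M.dm k t d ∧ M.same k x d) ∧ ∃ d, M.dm k t d ∧ M.same k y d)) (Or.inl (same.refl k x))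
    (fun y l hl _ ih => ?_) h
  have key : (∃ d, M.dm k t d ∧ M.same k y d) → ∃ d, M.dm k t d ∧ M.same k x d := by
    rintro ⟨d, d1, d2⟩
    rcases ih with a | a
    · exact ⟨d, d1, a.trans d2⟩
    · exact a.1
  by_cases h1 : M.dm k t y
  · rw [col_in l h1]
    exact Or.inr ⟨key ⟨y, h1, same.refl _ _⟩, _, dm_s h1, same.refl _ _⟩
  · by_cases h2 : M.dm k t (M.s l y)
    · rw [col_bd h2]
      exact Or.inr ⟨key ⟨_, h2, same.step hl y⟩, _, dm_s h2, same.step' hl _⟩
    · rw [col_out h1 h2]
      rcases ih with a | ⟨a, d, d1, d2⟩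
      · exact Or.inl (a.tail hl)
      · exact Or.inr ⟨a, d, d1, (same.step' hl y).trans d2⟩

/-- The vertex of class `k` of `t` stays connected after the collapse. -/
theorem apex_collapse [Finite T] (h : ¬ M.same k t (M.s k t)) {C : Type} {c : Fin 3 → T → C}
    (hc : (M.collapse k t).Inv c) : c k (M.s (k + 2) t) = c k (M.s (k + 1) t) := by
  obtain ⟨n1, n2, n3⟩ := succ_ne k
  have key : ∀ l x, l ≠ k → M.s l x ≠ t →
      (M.same k t x ∧ x ≠ t ∧ c k x = c k (M.s (k + 1) t)) →
      M.same k t (M.s l x) ∧ M.s l x ≠ t ∧ c k (M.s l x) = c k (M.s (k + 1) t) := by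
    rintro l x hl hx ⟨b1, b2, b3⟩
    refine ⟨b1.tail hl, hx, ?_⟩
    rw [← b3, ← hc k l x hl, col_out]
    · rintro (e | e)
      · exact b2 e
      · exact h (e ▸ b1)
    · rintro (e | e)
      · exact hx e
      · exact h (e ▸ b1.tail hl)
  rcases balance (M := M) (fun x => M.same k t x ∧ x ≠ t ∧ c k x = c k (M.s (k + 1) t)) (k + 2)
    (k + 1) (u := M.s (k + 1) t) ⟨same.step n1 t, M.s_ne _ _, rfl⟩
    (fun a => a.2.1 (M.invol _ _)) with ⟨x, b1, b2, b3⟩ | ⟨x, b1, -, b3⟩
  · refine (b3 (key _ x n1 (M.ne_of_col ?_) b1)).elim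
    rw [M.flip, b2, M.flip, Bool.not_not]
  · by_cases e : M.s (k + 2) x = t
    · rw [← b1.2.2, M.s_eq_iff.1 e]
    · exact (b3 (key _ x n2 e b1)).elim

theorem pull_one [Finite T] (h : ¬ M.same k t (M.s k t)) {C : Type} {c : Fin 3 → T → C}
    (hc : (M.collapse k t).Inv c) : ∃ c' : Fin 3 → T → C, M.Inv c' ∧
      (∀ m x, ¬ M.dm k t x → c' m x = c m x) ∧ ∀ m x, M.dm k t x → c' m (M.s k x) = c' m x := by
  classical
  obtain ⟨n1, n2, n3⟩ := succ_ne k
  have key : ∀ m l x, l ≠ m → l ≠ k → M.dm k t x →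
      c m (M.s l x) = c m (M.s (if m = k + 1 then k + 2 else k + 1) t) := by
    intro m l x h1 h2 hx
    have : c m (M.s l x) = c m (M.s l t) := by
      rcases hx with rfl | rfl
      · rfl
      · rw [← col_n, hc m l _ h1]
    rw [this]
    rcases ne_cases h2 with rfl | rfl
    · rw [if_neg h1.symm]
    · by_cases hm : m = k + 1
      · rw [if_pos hm]
      · have : m = k := by
          by_contra hk
          rcases ne_cases hk with e | e
          · exact hm e
          · exact h1 e.symm
        rw [if_neg hm, this]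
        exact apex_collapse h hc
  refine ⟨fun m x => if M.dm k t x then c m (M.s (if m = k + 1 then k + 2 else k + 1) t) else c m x,
    fun m l x hl => ?_, fun m x hx => if_neg hx, fun m x hx => ?_⟩
  · by_cases h1 : M.dm k t x <;> by_cases h2 : M.dm k t (M.s l x) <;>
      simp only [h1, h2, if_true, if_false]
    · refine key m l x hl ?_ h1
      rintro rfl
      exact h2 (dm_s h1)
    · rw [← key m l _ hl ?_ h2, M.invol]
      rintro rfl
      exact dm_s' h1 h2
    · rw [← col_out h1 h2, hc m l x hl]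
  · simp only [hx, dm_s hx, if_true]

theorem inD_cons {F : List T} {x : T} : M.inD k (t :: F) x ↔ M.dm k t x ∨ M.inD k F x := by
  simp only [inD, dm, List.mem_cons, M.s_eq_iff]
  tauto

theorem inD_collapse {F : List T} {x : T} : (M.collapse k t).inD k F x ↔ M.inD k F x := by
  simp only [inD, col_k]

variable {K : ℕ} {F : List T} {c : Fin 3 → T → Fin K}

theorem PB.skip (h : M.same k t (M.s k t)) (p : M.PB K k F c) : M.PB K k (t :: F) c where
  inv := p.inv
  hub := p.hub
  tri := fun i j x hij hx => p.tri i j x hij fun a => hx (inD_cons.2 (Or.inr a))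
  diag := fun j x a1 a2 a3 a4 => p.diag j x (fun a => a1 (inD_cons.2 (Or.inr a)))
    (fun a => a2 (inD_cons.2 (Or.inr a))) a3
    (a4.imp id fun b ⟨d, d1, d2⟩ => b ⟨d, inD_cons.2 (Or.inr d1), d2⟩)
  eq := fun x hx => by
    rcases List.mem_cons.1 hx with rfl | hx
    · exact p.inv.eq h
    · exact p.eq x hx

theorem PB.step [Finite T] (h : ¬ M.same k t (M.s k t)) (p : (M.collapse k t).PB K k F c) :
    ∃ c', M.PB K k (t :: F) c' := by
  obtain ⟨c', c1, c2, c3⟩ := pull_one h p.inv
  refine ⟨c', c1, fun i x hi => ?_, fun i j x hij hx => ?_, fun j x a1 a2 a3 a4 => ?_,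
    fun x hx => ?_⟩
  · by_cases hx : M.dm k t x
    · obtain ⟨l, l1, l2, -⟩ := third hi
      rw [← c1 i l x l1, ← c1 k l x l2, c2 _ _ (dm_exit h l2 hx), c2 _ _ (dm_exit h l2 hx)]
      exact p.hub i _ hi
    · rw [c2 _ _ hx, c2 _ _ hx]
      exact p.hub i x hi
  · rw [inD_cons, not_or] at hx
    rw [c2 _ _ hx.1, c2 _ _ hx.1]
    exact p.tri i j x hij fun a => hx.2 (inD_collapse.1 a)
  · rw [inD_cons, not_or] at a1 a2
    have e := col_out a1.1 a2.1
    rw [c2 _ _ a1.1, c2 _ _ a2.1, ← e]
    have na : ¬ M.apex k (t :: F) x → ¬ ∃ d, M.dm k t d ∧ M.same k x d :=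
      fun b ⟨d, d1, d2⟩ => b ⟨d, inD_cons.2 (Or.inl d1), d2⟩
    refine p.diag j x (fun a => a1.2 (inD_collapse.1 a))
      (fun a => a2.2 (e ▸ inD_collapse.1 a)) (fun a => ?_) (a4.imp id fun b ⟨d, d1, d2⟩ => ?_)
    · rw [e] at a
      by_cases hj : j = k
      · subst hj
        rcases same_collapse_eq a with b | b
        · exact a3 b
        · exact na (a4.resolve_left (not_not.2 rfl)) b.1
      · exact a3 (same_collapse_ne hj a)
    · rcases same_collapse_eq d2 with b' | b'
      · exact b ⟨d, inD_cons.2 (Or.inr (inD_collapse.1 d1)), b'⟩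
      · exact na b b'.1
  · by_cases hd : M.dm k t x
    · exact c3 k x hd
    · rcases List.mem_cons.1 hx with rfl | hx
      · exact (hd (Or.inl rfl)).elim
      · rw [c2 _ _ hd, c2 _ _ (dm_s' hd), ← col_k (t := t)]
        exact p.eq x hx

theorem pull_aux [Fintype T] (K : ℕ) (k : Fin 3) (F : List T) : ∀ M : Tri T, M.Planar →
    (∀ M' : Tri T, M'.Planar → M'.mu ≤ M.mu → ∃ c, M'.Good K c) → ∃ c, M.PB K k F c := by
  induction F with
  | nil =>
    intro M hM h
    obtain ⟨c, g⟩ := h M hM le_rfl
    exact ⟨c, g.inv, fun i x hi => g.tri i k x hi, fun i j x hij _ => g.tri i j x hij,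
      fun j x _ _ a _ => g.diag j x a, by simp⟩
  | cons t F ih =>
    intro M hM h
    by_cases hs : M.same k t (M.s k t)
    · obtain ⟨c, p⟩ := ih M hM h
      exact ⟨c, p.skip hs⟩
    · obtain ⟨c, p⟩ := ih _ (hM.collapse hs)
        fun M' a b => h M' a (b.trans (mu_le (theta_collapse hs)))
      exact p.step hs

/-- F7. The colouring of the collapsed map, pulled back to a minimal counterexample. -/
theorem Minimal.pull [Fintype T] (hM : M.Minimal K) (hK : 5 ≤ K) (k : Fin 3) (F : List T) {t : T}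
    (hF : t ∈ F) (ht : ¬ M.theta t) : ∃ c, M.PB K k F c := by
  have hs := hM.not_same hK k ht
  have hl : (M.collapse k t).mu < M.mu :=
    mu_lt (theta_collapse hs) ht fun i j => by rw [col_t, col_t]
  obtain ⟨c, p⟩ := pull_aux K k F _ (hM.planar.collapse hs)
    fun M' a b => hM.min M' a (b.trans_lt hl)
  obtain ⟨c', p'⟩ := p.step hs
  have e : ∀ x, M.inD k (t :: F) x → M.inD k F x := by
    intro x hx
    rcases inD_cons.1 hx with (rfl | rfl) | a
    · exact Or.inl hF
    · exact Or.inr (by rwa [M.invol])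
    · exact a
  exact ⟨c', p'.inv, p'.hub, fun i j x hij hx => p'.tri i j x hij fun a => hx (e x a),
    fun j x a1 a2 a3 a4 => p'.diag j x (fun a => a1 (e _ a)) (fun a => a2 (e _ a)) a3
      (a4.imp id fun b ⟨d, d1, d2⟩ => b ⟨d, e d d1, d2⟩),
    fun x hx => p'.eq x (List.mem_cons_of_mem _ hx)⟩

end Tri

end Pool.Agent.P.MP_e6b138_co
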