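import Mathlib

/-!
Three-coloured triangulations given by three involutions on the set `T` of triangles
(the vertices of the cubic bipartite map).
-/

set_option autoImplicit false

namespace Pool.Agent.P.MP_e6b138_co

open Finset

/-- Triangles with the three reflections `s k` (across the edge opposite to the vertex of class `k`)
and the two-colouring `col`. -/
structure Tri (T : Type) where
  s : Fin 3 → T → T
  col : T → Bool
  invol : ∀ k t, s k (s k t) = t
  flip : ∀ k t, col (s k t) = !col t

namespace Tri

variable {T : Type} (M : Tri T)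

/-- `t` and `u` have the same vertex of class `k`. -/
def same (k : Fin 3) (t u : T) : Prop :=
  Relation.ReflTransGen (fun a b => ∃ i, i ≠ k ∧ b = M.s i a) t u

/-- `t` and `u` lie in the same component. -/
def conn (t u : T) : Prop := Relation.ReflTransGen (fun a b => ∃ i, b = M.s i a) t u

open Classical in
/-- Degree of the vertex of class `k` of `t`. -/
noncomputable def deg [Fintype T] (k : Fin 3) (t : T) : ℕ := (univ.filter fun u => M.same k t u).card

/-- `a k t` only depends on the vertex of class `k` of `t`. -/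
def Inv {C : Type} (a : Fin 3 → T → C) : Prop := ∀ k i t, i ≠ k → a k (M.s i t) = a k t

/-- Diagonal colouring with `K` colours. -/
structure Good (K : ℕ) (c : Fin 3 → T → Fin K) : Prop where
  inv : M.Inv c
  tri : ∀ i j t, i ≠ j → c i t ≠ c j t
  diag : ∀ k t, ¬ M.same k t (M.s k t) → c k t ≠ c k (M.s k t)

/-- The component of `t` has two triangles. -/
def theta (t : T) : Prop := ∀ i j, M.s i t = M.s j t

open Classical in
/-- Number of triangles outside the trivial components. -/
noncomputable def mu [Fintype T] : ℕ := (univ.filter fun t => ¬ M.theta t).card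

/-- Every component is a sphere: every `ZMod 2` valued function on the edges with sum zero on every
triangle comes from a function on the vertices. -/
def Planar : Prop := ∀ f : Fin 3 → T → ZMod 2, (∀ k t, f k (M.s k t) = f k t) →
  (∀ t, f 0 t + f 1 t + f 2 t = 0) →
  ∃ a : Fin 3 → T → ZMod 2, M.Inv a ∧ ∀ k t, f k t = a (k + 1) t + a (k + 2) t

/-- Minimal counterexample. -/
structure Minimal [Fintype T] (K : ℕ) : Prop where
  planar : M.Planar
  bad : ¬ ∃ c, M.Good K c
  min : ∀ M' : Tri T, M'.Planar → M'.mu < M.mu → ∃ c, M'.Good K c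

/-- `x` belongs to one of the diamonds `t, s k t` with `t ∈ F`. -/
def inD (k : Fin 3) (F : List T) (x : T) : Prop := x ∈ F ∨ M.s k x ∈ F

/-- The vertex of class `k` of `x` is an apex of one of the diamonds. -/
def apex (k : Fin 3) (F : List T) (x : T) : Prop := ∃ t, M.inD k F t ∧ M.same k x t

/-- Colouring pulled back from the map in which the diamonds of `F` are collapsed. -/
structure PB (K : ℕ) (k : Fin 3) (F : List T) (c : Fin 3 → T → Fin K) : Prop where
  inv : M.Inv c
  hub : ∀ i x, i ≠ k → c i x ≠ c k x
  tri : ∀ i j x, i ≠ j → ¬ M.inD k F x → c i x ≠ c j x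
  diag : ∀ j x, ¬ M.inD k F x → ¬ M.inD k F (M.s j x) → ¬ M.same j x (M.s j x) →
    (j ≠ k ∨ ¬ M.apex k F x) → c j x ≠ c j (M.s j x)
  eq : ∀ t ∈ F, c k (M.s k t) = c k t

/-! ### Basic facts -/

theorem s_inj (k : Fin 3) : Function.Injective (M.s k) :=
  Function.LeftInverse.injective (M.invol k)

theorem s_eq_iff {k : Fin 3} {a b : T} : M.s k a = b ↔ a = M.s k b := by
  constructor
  · rintro rfl; rw [M.invol]
  · rintro rfl; rw [M.invol]

theorem ne_of_col {a b : T} (h : M.col a = !M.col b) : a ≠ b := by
  rintro rfl; simp at h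

theorem s_ne (k : Fin 3) (t : T) : M.s k t ≠ t := M.ne_of_col (M.flip k t)

theorem col_ss (i j : Fin 3) (t : T) : M.col (M.s i (M.s j t)) = M.col t := by
  rw [M.flip, M.flip, Bool.not_not]

theorem third {i j : Fin 3} (h : i ≠ j) : ∃ k, k ≠ i ∧ k ≠ j ∧ ∀ l, l = i ∨ l = j ∨ l = k := by
  revert i j; decide

theorem succ_ne (k : Fin 3) : k + 1 ≠ k ∧ k + 2 ≠ k ∧ k + 1 ≠ k + 2 := by revert k; decide

theorem ne_cases {i k : Fin 3} (h : i ≠ k) : i = k + 1 ∨ i = k + 2 := by revert i k; decide

variable {M}

theorem same.refl (k : Fin 3) (t : T) : M.same k t t := Relation.ReflTransGen.refl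

theorem same.step {k i : Fin 3} (h : i ≠ k) (t : T) : M.same k t (M.s i t) :=
  Relation.ReflTransGen.single ⟨i, h, rfl⟩

theorem same.trans {k : Fin 3} {t u v : T} (a : M.same k t u) (b : M.same k u v) : M.same k t v :=
  Relation.ReflTransGen.trans a b

theorem same.tail {k i : Fin 3} {t u : T} (a : M.same k t u) (h : i ≠ k) : M.same k t (M.s i u) :=
  a.trans (same.step h u)

theorem same.step' {k i : Fin 3} (h : i ≠ k) (t : T) : M.same k (M.s i t) t := by
  have := same.step (M := M) h (M.s i t)
  rwa [M.invol] at this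

theorem same.ind {k : Fin 3} {t : T} {p : T → Prop} (h0 : p t)
    (h1 : ∀ u i, i ≠ k → M.same k t u → p u → p (M.s i u)) {u : T} (h : M.same k t u) : p u := by
  induction h with
  | refl => exact h0
  | tail a b ih =>
    obtain ⟨i, hi, rfl⟩ := b
    exact h1 _ i hi a ih

theorem same.symm {k : Fin 3} {t u : T} (a : M.same k t u) : M.same k u t :=
  same.ind (p := fun u => M.same k u t) (same.refl k t)
    (fun u _ hi _ h => (same.step' hi u).trans h) a

theorem Inv.eq {C : Type} {a : Fin 3 → T → C} (h : M.Inv a) {k : Fin 3} {t u : T}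
    (e : M.same k t u) : a k u = a k t :=
  same.ind (p := fun u => a k u = a k t) rfl (fun u i hi _ ih => (h k i u hi).trans ih) e

theorem conn.refl (t : T) : M.conn t t := Relation.ReflTransGen.refl

theorem conn.step (i : Fin 3) (t : T) : M.conn t (M.s i t) := Relation.ReflTransGen.single ⟨i, rfl⟩

theorem conn.trans {t u v : T} (a : M.conn t u) (b : M.conn u v) : M.conn t v :=
  Relation.ReflTransGen.trans a b

theorem conn.ind {t : T} {p : T → Prop} (h0 : p t)
    (h1 : ∀ u i, M.conn t u → p u → p (M.s i u)) {u : T} (h : M.conn t u) : p u := by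
  induction h with
  | refl => exact h0
  | tail a b ih =>
    obtain ⟨i, rfl⟩ := b
    exact h1 _ i a ih

theorem conn.symm {t u : T} (a : M.conn t u) : M.conn u t :=
  conn.ind (p := fun u => M.conn u t) (conn.refl t)
    (fun u i _ h => by
      have := conn.step (M := M) i (M.s i u)
      rw [M.invol] at this
      exact this.trans h) a

theorem same.conn {k : Fin 3} {t u : T} (a : M.same k t u) : M.conn t u :=
  same.ind (p := fun u => M.conn t u) (conn.refl t) (fun u i _ _ h => h.trans (conn.step i u)) a

theorem theta.s {t : T} (h : M.theta t) (k : Fin 3) : M.theta (M.s k t) := by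
  intro i j
  rw [h k i, M.invol, h i j, M.invol]

theorem theta.of_s {t : T} {k : Fin 3} (h : M.theta (M.s k t)) : M.theta t := by
  have := h.s k
  rwa [M.invol] at this

theorem theta.conn {t u : T} (h : M.theta t) (a : M.conn t u) : M.theta u :=
  conn.ind (p := fun u => M.theta u) h (fun _ i _ h => h.s i) a

theorem theta.same {t : T} (h : M.theta t) (k : Fin 3) : M.same k t (M.s k t) := by
  rw [h k (k + 1)]
  exact same.step (succ_ne k).1 t

/-- The vertices of class `k`. -/
def vs (M : Tri T) (k : Fin 3) : Setoid T :=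
  ⟨M.same k, ⟨same.refl k, same.symm, same.trans⟩⟩

/-- Walking around a vertex from an exit of `X` one meets another exit. -/
theorem balance [Finite T] (X : T → Prop) (j k : Fin 3) {u : T} (h1 : X u) (h2 : ¬ X (M.s k u)) :
    (∃ x, X x ∧ M.col x = !M.col u ∧ ¬ X (M.s k x)) ∨
      ∃ x, X x ∧ M.col x = M.col u ∧ ¬ X (M.s j x) := by
  by_contra hc
  push Not at hc
  obtain ⟨a, b⟩ := hc
  let φ : {x // X x ∧ M.col x = M.col u} → {x // X x ∧ M.col x = M.col u} := fun x =>
    ⟨M.s k (M.s j x.1), a _ (b _ x.2.1 x.2.2) (by rw [M.flip, x.2.2]), by rw [M.col_ss, x.2.2]⟩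
  have hφ : Function.Injective φ := fun x y h =>
    Subtype.ext (M.s_inj j (M.s_inj k (congrArg Subtype.val h)))
  obtain ⟨x, hx⟩ := Finite.surjective_of_injective hφ ⟨u, h1, rfl⟩
  have e : M.s k (M.s j x.1) = u := congrArg Subtype.val hx
  apply h2
  rw [← e, M.invol]
  exact b _ x.2.1 x.2.2

theorem mu_le [Fintype T] {M M' : Tri T} (h : ∀ x, M.theta x → M'.theta x) : M'.mu ≤ M.mu := by
  classical
  refine card_le_card fun x hx => ?_
  simp only [mem_filter, mem_univ, true_and] at hx ⊢
  exact fun a => hx (h x a)

theorem mu_lt [Fintype T] {M M' : Tri T} (h : ∀ x, M.theta x → M'.theta x) {t : T}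
    (h1 : ¬ M.theta t) (h2 : M'.theta t) : M'.mu < M.mu := by
  classical
  refine card_lt_card ⟨fun x hx => ?_, fun hh => ?_⟩
  · simp only [mem_filter, mem_univ, true_and] at hx ⊢
    exact fun a => hx (h x a)
  · have := hh (show t ∈ univ.filter fun t => ¬ M.theta t by simpa using h1)
    simp only [mem_filter, mem_univ, true_and] at this
    exact this h2

/-- Planarity only has to be checked outside a closed set of trivial components. -/
theorem planar_of_off (D : T → Prop) (h1 : ∀ x, D x → M.theta x) (h2 : ∀ x i, D x → D (M.s i x))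
    (h : ∀ f : Fin 3 → T → ZMod 2, (∀ k t, f k (M.s k t) = f k t) →
      (∀ t, f 0 t + f 1 t + f 2 t = 0) → ∃ a : Fin 3 → T → ZMod 2,
        (∀ k i t, i ≠ k → ¬ D t → a k (M.s i t) = a k t) ∧
        ∀ k t, ¬ D t → f k t = a (k + 1) t + a (k + 2) t) : M.Planar := by
  classical
  intro f f1 f2
  obtain ⟨a, a1, a2⟩ := h f f1 f2
  have h3 : ∀ x i, ¬ D x → ¬ D (M.s i x) := fun x i hx hd => hx (M.invol i x ▸ h2 _ i hd)
  refine ⟨fun k t => if D t then ![0, f 2 t, f 1 t] k else a k t, fun k i t hi => ?_, fun k t => ?_⟩
  · by_cases hd : D t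
    · simp only [hd, h2 t i hd, if_true]
      rw [h1 t hd i 2, f1, h1 t hd 2 1, f1]
    · simp only [hd, h3 t i hd, if_false]
      exact a1 k i t hi hd
  · by_cases hd : D t
    · simp only [hd, if_true]
      have := f2 t
      have two : ∀ x y z : ZMod 2, x + y + z = 0 → x = z + y := by decide
      fin_cases k
      · exact two _ _ _ this
      · simp
      · simp
    · simp only [hd, if_false]
      exact a2 k t hd

/-- It is enough to exclude minimal counterexamples. -/
theorem good_of_no_minimal [Fintype T] (K : ℕ) (h : ∀ M : Tri T, ¬ M.Minimal K) (M : Tri T)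
    (hM : M.Planar) : ∃ c, M.Good K c := by
  induction hn : M.mu using Nat.strong_induction_on generalizing M with
  | _ n ih =>
    by_contra hc
    exact h M ⟨hM, hc, fun M' p l => ih _ (hn ▸ l) M' p rfl⟩

theorem Minimal.exists_not_theta [Fintype T] {K : ℕ} (h : M.Minimal K) (hK : 3 ≤ K) :
    ∃ t, ¬ M.theta t := by
  by_contra hc
  push Not at hc
  refine h.bad ⟨fun k _ => Fin.castLE hK k, fun _ _ _ _ => rfl, fun i j _ hij e => ?_,
    fun k t hs => (hs ((hc t).same k)).elim⟩
  exact hij (Fin.castLE_injective hK e)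

end Tri

/-- A permutation of the colours which fixes `A` and avoids the listed conflicts. -/
theorem exists_perm_avoid {K : ℕ} (L : List (Fin K × Fin K)) (A : Finset (Fin K))
    (h1 : ∀ e ∈ L, e.1 ∉ A) (h2 : A.card + L.length < K) :
    ∃ π : Equiv.Perm (Fin K), (∀ a ∈ A, π a = a) ∧ ∀ e ∈ L, π e.1 ≠ e.2 := by
  induction hn : L.length using Nat.strong_induction_on generalizing L A with
  | _ n ih =>
    cases L with
    | nil => exact ⟨1, fun _ _ => rfl, by simp⟩
    | cons e L =>
      have hz : ∃ z, z ∉ A ∪ ((e :: L).map Prod.snd).toFinset := by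
        by_contra hc
        push Not at hc
        have a1 : (univ : Finset (Fin K)).card ≤ (A ∪ ((e :: L).map Prod.snd).toFinset).card :=
          card_le_card fun z _ => hc z
        have a2 := card_union_le A ((e :: L).map Prod.snd).toFinset
        have a3 := List.toFinset_card_le ((e :: L).map Prod.snd)
        rw [List.length_map] at a3
        rw [card_univ, Fintype.card_fin] at a1
        omega
      obtain ⟨z, hz⟩ := hz
      rw [mem_union, not_or] at hz
      have hq : e.1 ∉ A := h1 e (by simp)
      have fixA : ∀ a ∈ A, Equiv.swap e.1 z a = a := fun a ha =>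
        Equiv.swap_apply_of_ne_of_ne (fun h => hq (h ▸ ha)) (fun h => hz.1 (h ▸ ha))
      have hl : ((L.filter fun x => x.1 ≠ e.1).map fun x => (Equiv.swap e.1 z x.1, x.2)).length ≤
          L.length := by
        rw [List.length_map]; exact List.length_filter_le _ _
      simp only [List.length_cons] at hn h2
      obtain ⟨π, p1, p2⟩ := ih _ (by omega)
        ((L.filter fun x => x.1 ≠ e.1).map fun x => (Equiv.swap e.1 z x.1, x.2)) (insert z A)
        (by
          intro y hy
          obtain ⟨x, hx, rfl⟩ := List.mem_map.1 hy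
          obtain ⟨x1, x2⟩ := List.mem_filter.1 hx
          have x3 : x.1 ≠ e.1 := by simpa using x2
          rw [mem_insert, not_or]
          constructor
          · intro h
            exact x3 ((Equiv.swap e.1 z).injective (h.trans (Equiv.swap_apply_left _ _).symm))
          · intro h
            have := (Equiv.swap e.1 z).injective (fixA _ h)
            exact h1 x (List.mem_cons_of_mem _ x1) (this ▸ h))
        (by have := card_insert_le z A; omega) rfl
      refine ⟨π * Equiv.swap e.1 z, fun a ha => ?_, fun x hx => ?_⟩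
      · rw [Equiv.Perm.mul_apply, fixA a ha, p1 a (mem_insert_of_mem ha)]
      · rw [Equiv.Perm.mul_apply]
        by_cases hx1 : x.1 = e.1
        · rw [hx1, Equiv.swap_apply_left, p1 z (mem_insert_self _ _)]
          intro h
          exact hz.2 (List.mem_toFinset.2 (List.mem_map.2 ⟨x, hx, h.symm⟩))
        · rcases List.mem_cons.1 hx with rfl | hx'
          · exact absurd rfl hx1
          · exact p2 (Equiv.swap e.1 z x.1, x.2)
              (List.mem_map.2 ⟨x, List.mem_filter.2 ⟨hx', by simpa using hx1⟩, rfl⟩)

/-- A permutation of the colours with prescribed values on `ι` which avoids the listed conflicts. -/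
theorem exists_perm_match {K : ℕ} {ι : Type} [Fintype ι] (a b : ι → Fin K)
    (ha : Function.Injective a) (hb : Function.Injective b) (L : List (Fin K × Fin K))
    (h1 : ∀ e ∈ L, ∀ i, e.1 ≠ a i) (h2 : Fintype.card ι + L.length < K) :
    ∃ π : Equiv.Perm (Fin K), (∀ i, π (a i) = b i) ∧ ∀ e ∈ L, π e.1 ≠ e.2 := by
  classical
  obtain ⟨ρ, hρ⟩ := Equiv.Perm.exists_extending_pair a b ha hb
  obtain ⟨π, p1, p2⟩ := exists_perm_avoid (L.map fun e => (ρ e.1, e.2)) (univ.image b)
    (by
      intro y hy
      obtain ⟨x, hx, rfl⟩ := List.mem_map.1 hy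
      intro h
      obtain ⟨i, -, hi⟩ := mem_image.1 h
      exact h1 x hx i (ρ.injective (hi.symm.trans (hρ i).symm)))
    (by
      have := card_image_le (s := (univ : Finset ι)) (f := b)
      rw [card_univ] at this
      rw [List.length_map]
      omega)
  refine ⟨π * ρ, fun i => ?_, fun e he => ?_⟩
  · rw [Equiv.Perm.mul_apply, hρ, p1 _ (mem_image_of_mem b (mem_univ i))]
  · exact p2 (ρ e.1, e.2) (List.mem_map.2 ⟨e, he, rfl⟩)

end Pool.Agent.P.MP_e6b138_co
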