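import Pool.Agent.P.MP_e6b138_co.Defs

/-! A closed walk in a planar map has two sides. -/

set_option autoImplicit false

namespace Pool.Agent.P.MP_e6b138_co

namespace Tri

variable {T : Type} (M : Tri T)

open Classical in
/-- Indicator of the edge of class `k` of `t`. -/
noncomputable def ed (k : Fin 3) (t : T) : Fin 3 → T → ZMod 2 :=
  fun i u => if i = k ∧ (u = t ∨ u = M.s k t) then 1 else 0

/-- `g` has a potential around the vertices of class `k`. -/
def Cob (k : Fin 3) (g : Fin 3 → T → ZMod 2) : Prop :=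
  ∃ τ : T → ZMod 2, ∀ i u, i ≠ k → g i u = τ u + τ (M.s i u)

theorem ed_s (k : Fin 3) (t : T) : M.ed k (M.s k t) = M.ed k t := by
  funext i u
  unfold ed
  rw [M.invol]
  congr 1
  exact propext (and_congr_right fun _ => or_comm)

theorem ed_pos {k i : Fin 3} {t u : T} (h : i = k) (h' : u = t ∨ u = M.s k t) :
    M.ed k t i u = 1 := if_pos ⟨h, h'⟩

theorem ed_neg {k i : Fin 3} {t u : T} (h : ¬ (i = k ∧ (u = t ∨ u = M.s k t))) :
    M.ed k t i u = 0 := if_neg h

variable {M}

theorem Cob.add {k : Fin 3} {g h : Fin 3 → T → ZMod 2} (a : M.Cob k g) (b : M.Cob k h) :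
    M.Cob k (g + h) := by
  obtain ⟨τ, a⟩ := a
  obtain ⟨ρ, b⟩ := b
  refine ⟨τ + ρ, fun i u hi => ?_⟩
  simp only [Pi.add_apply, a i u hi, b i u hi]
  ring

theorem Cob.of_zero {k : Fin 3} {g : Fin 3 → T → ZMod 2} (h : ∀ i u, i ≠ k → g i u = 0) :
    M.Cob k g := ⟨0, fun i u hi => by simp [h i u hi]⟩

theorem add_self2 (x : ZMod 2) : x + x = 0 := by revert x; decide

theorem Cob.corner {j i i' : Fin 3} (hi : i ≠ j) (hi' : i' ≠ j) (t : T) :
    M.Cob j (M.ed i t + M.ed i' t) := by
  classical
  by_cases e : i = i'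
  · subst e
    exact Cob.of_zero fun _ _ _ => add_self2 _
  · refine ⟨fun u => if u = t then 1 else 0, fun l u hl => ?_⟩
    have key : ∀ l, M.ed l t l u =
        (if u = t then 1 else 0) + if M.s l u = t then 1 else 0 := by
      intro l
      by_cases h1 : u = t
      · subst h1
        rw [M.ed_pos rfl (Or.inl rfl), if_pos rfl, if_neg (M.s_ne l u), add_zero]
      · by_cases h2 : M.s l u = t
        · rw [M.ed_pos rfl (Or.inr (M.s_eq_iff.1 h2)), if_neg h1, if_pos h2, zero_add]
        · rw [M.ed_neg, if_neg h1, if_neg h2, zero_add]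
          rintro ⟨-, h | h⟩
          · exact h1 h
          · exact h2 (M.s_eq_iff.2 h)
    have hl' : l = i ∨ l = i' := by
      revert hi hi' e hl
      generalize j = a, i = b, i' = c, l = d
      revert a b c d
      decide
    simp only [Pi.add_apply]
    rcases hl' with rfl | rfl
    · rw [key, M.ed_neg (k := i') fun h => e h.1, add_zero]
    · rw [key, M.ed_neg (k := i) fun h => e h.1.symm, zero_add]

theorem Cob.pair {j i i' : Fin 3} (hi : i ≠ j) (hi' : i' ≠ j) {t u : T} (h : M.same j t u) :
    M.Cob j (M.ed i t + M.ed i' u) := by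
  refine same.ind (p := fun u => ∀ i', i' ≠ j → M.Cob j (M.ed i t + M.ed i' u))
    (fun i' hi' => Cob.corner hi hi' t) (fun u l hl _ ih i' hi' => ?_) h i' hi'
  have := (ih l hl).add (Cob.corner hl hi' (M.s l u))
  rw [ed_s] at this
  convert this using 1
  funext a b
  simp only [Pi.add_apply]
  linear_combination (-1 : ZMod 2) * add_self2 (M.ed l u a b)

theorem Planar.side_of_cob (hM : M.Planar) {g : Fin 3 → T → ZMod 2} (h : ∀ k, M.Cob k g) :
    ∃ σ : T → ZMod 2, ∀ k t, g k t = σ t + σ (M.s k t) := by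
  choose τ hτ using h
  obtain ⟨a, a1, a2⟩ := hM (fun k t => τ (k + 1) t + τ (k + 2) t)
    (fun k t => by
      have e1 := hτ (k + 1) k t (succ_ne k).1.symm
      have e2 := hτ (k + 2) k t (succ_ne k).2.1.symm
      linear_combination e2 - e1 + add_self2 (τ (k + 2) (M.s k t)) - add_self2 (τ (k + 1) t))
    (fun t => by
      change τ 1 t + τ 2 t + (τ 2 t + τ 0 t) + (τ 0 t + τ 1 t) = 0
      linear_combination add_self2 (τ 0 t) + add_self2 (τ 1 t) + add_self2 (τ 2 t))
  have e : ∀ k t, τ 0 t + a 0 t = τ k t + a k t := by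
    intro k t
    fin_cases k
    · rfl
    · have : τ 0 t + τ 1 t = a 0 t + a 1 t := a2 2 t
      change τ 0 t + a 0 t = τ 1 t + a 1 t
      linear_combination this + add_self2 (a 0 t) - add_self2 (τ 1 t)
    · have : τ 2 t + τ 0 t = a 2 t + a 0 t := a2 1 t
      change τ 0 t + a 0 t = τ 2 t + a 2 t
      linear_combination this + add_self2 (a 0 t) - add_self2 (τ 2 t)
  refine ⟨fun t => τ 0 t + a 0 t, fun k t => ?_⟩
  simp only [e (k + 1)]
  rw [hτ (k + 1) k t (succ_ne k).1.symm, a1 (k + 1) k t (succ_ne k).1.symm]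
  linear_combination (-1 : ZMod 2) * add_self2 (a (k + 1) t)

/-- F8. A list of edges that passes every vertex evenly is the boundary of a set of triangles. -/
theorem Planar.side (hM : M.Planar) (L : List (Fin 3 × T))
    (h : ∀ a : Fin 3 → T → ZMod 2, M.Inv a →
      (L.map fun e => a (e.1 + 1) e.2 + a (e.1 + 2) e.2).sum = 0) :
    ∃ σ : T → ZMod 2, ∀ k t, σ t + σ (M.s k t) = (L.map fun e => M.ed e.1 e.2 k t).sum := by
  classical
  have hc : ∀ j, M.Cob j fun k t => (L.map fun e => M.ed e.1 e.2 k t).sum := by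
    intro j
    let β : T → T := fun t => (Quotient.mk (M.vs j) t).out
    have b1 : ∀ t, M.same j t (β t) := fun t => same.symm (Quotient.mk_out (s := M.vs j) t)
    have b2 : ∀ i t, i ≠ j → β (M.s i t) = β t := fun i t hi =>
      congrArg Quotient.out (Quotient.sound (s := M.vs j) (same.step' hi t))
    let r : Fin 3 × T → Fin 3 → T → ZMod 2 := fun e =>
      if e.1 = j then 0 else M.ed (j + 1) (β e.2)
    have c1 : ∀ L : List (Fin 3 × T),
        M.Cob j fun k t => (L.map fun e => M.ed e.1 e.2 k t).sum + (L.map fun e => r e k t).sum := by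
      intro L
      induction L with
      | nil => exact Cob.of_zero fun _ _ _ => by simp
      | cons e L ih =>
        have he : M.Cob j (M.ed e.1 e.2 + r e) := by
          by_cases hj : e.1 = j
          · refine Cob.of_zero fun i u hi => ?_
            simp only [r, hj, if_true, add_zero]
            exact M.ed_neg fun h => hi h.1
          · simp only [r, hj, if_false]
            exact Cob.pair hj (succ_ne j).1 (b1 _)
        convert he.add ih using 1
        funext a b
        simp only [List.map_cons, List.sum_cons, Pi.add_apply]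
        ring
    have c2 : ∀ k t, (L.map fun e => r e k t).sum = 0 := by
      intro k t
      rw [← h (fun m x => if m = j then M.ed (j + 1) (β x) k t else 0)
        (fun m i x hi => by
          by_cases hm : m = j
          · subst hm
            simp only [if_true, b2 i x hi]
          · simp only [hm, if_false])]
      congr 1
      refine List.map_congr_left fun e _ => ?_
      by_cases hj : e.1 = j
      · simp only [r, hj, if_true, (succ_ne j).1, (succ_ne j).2.1, if_false, add_zero]
        rfl
      · simp only [r, hj, if_false]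
        rcases ne_cases (Ne.symm hj) with h1 | h1
        · rw [if_pos h1.symm, if_neg, add_zero]
          rw [h1]
          exact (succ_ne _).2.2.symm
        · rw [if_neg, if_pos h1.symm, zero_add]
          rw [h1]
          exact (succ_ne _).2.2
    simpa only [c2, add_zero] using c1 L
  obtain ⟨σ, hσ⟩ := hM.side_of_cob hc
  exact ⟨σ, fun k t => (hσ k t).symm⟩

theorem eq_iff2 (x y z : ZMod 2) : (x + y = 0 → (x = z ↔ y = z)) ∧
    (x + y = 1 → (x = z ↔ ¬ y = z)) := by revert x y z; decide

/-- Two parallel edges cut the map in two parts. -/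
theorem Planar.side2 (hM : M.Planar) {i j k : Fin 3} (hij : i ≠ j) (hik : i ≠ k) (hjk : j ≠ k)
    {t u : T} (h1 : M.same i t u) (h2 : M.same j t u) (hc : M.col u = M.col t) (hne : t ≠ u) :
    ∃ X : T → Prop, X t ∧ ¬ X (M.s k t) ∧ (X u ↔ ¬ X (M.s k u)) ∧
      (∀ l x, l ≠ k → X x → X (M.s l x)) ∧
      ∀ x, x ≠ t → x ≠ M.s k t → x ≠ u → x ≠ M.s k u → X x → X (M.s k x) := by
  obtain ⟨σ, hσ⟩ := hM.side [(k, t), (k, u)] (fun a ha => by
    have e : ∀ l, l ≠ k → a l u = a l t := by
      intro l hl
      have : l = i ∨ l = j := by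
        revert hij hik hjk hl
        generalize j = a, i = b, k = c, l = d
        revert a b c d
        decide
      rcases this with rfl | rfl
      · exact ha.eq h1
      · exact ha.eq h2
    simp only [List.map_cons, List.map_nil, List.sum_cons, List.sum_nil, add_zero,
      e _ (succ_ne k).1, e _ (succ_ne k).2.1]
    exact add_self2 _)
  simp only [List.map_cons, List.map_nil, List.sum_cons, List.sum_nil, add_zero] at hσ
  have n1 : t ≠ M.s k u := M.ne_of_col (by rw [M.flip, hc, Bool.not_not])
  have n2 : u ≠ M.s k t := M.ne_of_col (by rw [M.flip, hc, Bool.not_not])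
  refine ⟨fun x => σ x = σ t, rfl, ?_, ?_, fun l x hl hx => ?_, fun x a b c d hx => ?_⟩
  · have := hσ k t
    rw [M.ed_pos rfl (Or.inl rfl), M.ed_neg (by simp [hne, n1]), add_zero] at this
    exact ((eq_iff2 _ _ (σ t)).2 this).1 rfl
  · have := hσ k u
    rw [M.ed_neg (by simp [hne.symm, n2]), M.ed_pos rfl (Or.inl rfl), zero_add] at this
    exact (eq_iff2 _ _ (σ t)).2 this
  · have := hσ l x
    rw [M.ed_neg (by simp [hl]), M.ed_neg (by simp [hl]), add_zero] at this
    exact ((eq_iff2 _ _ (σ t)).1 this).1 hx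
  · have := hσ k x
    rw [M.ed_neg (by simp [a, b]), M.ed_neg (by simp [c, d]), add_zero] at this
    exact ((eq_iff2 _ _ (σ t)).1 this).1 hx

/-- A closed walk of length three cuts the map in two parts. -/
theorem Planar.side3 (hM : M.Planar) (a : Fin 3 → T)
    (h : ∀ k i j, i ≠ k → j ≠ k → M.same k (a i) (a j)) :
    ∃ X : T → Prop, X (a 0) ∧ (∀ k, X (a k) ↔ ¬ X (M.s k (a k))) ∧
      ∀ k x, x ≠ a k → x ≠ M.s k (a k) → (X x ↔ X (M.s k x)) := by
  obtain ⟨σ, hσ⟩ := hM.side [(0, a 0), (1, a 1), (2, a 2)] (fun b hb => by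
    have e0 := hb.eq (h 0 1 2 (by decide) (by decide))
    have e1 := hb.eq (h 1 0 2 (by decide) (by decide))
    have e2 := hb.eq (h 2 0 1 (by decide) (by decide))
    simp only [List.map_cons, List.map_nil, List.sum_cons, List.sum_nil, add_zero]
    change b 1 (a 0) + b 2 (a 0) + (b 2 (a 1) + b 0 (a 1) + (b 0 (a 2) + b 1 (a 2))) = 0
    rw [e0, e1, e2]
    linear_combination add_self2 (b 0 (a 1)) + add_self2 (b 1 (a 0)) + add_self2 (b 2 (a 0)))
  simp only [List.map_cons, List.map_nil, List.sum_cons, List.sum_nil, add_zero] at hσ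
  have e : ∀ k x, σ x + σ (M.s k x) = M.ed k (a k) k x := by
    intro k x
    rw [hσ]
    fin_cases k
    · rw [M.ed_neg (k := 1) (by simp), M.ed_neg (k := 2) (by simp), add_zero, add_zero]; rfl
    · rw [M.ed_neg (k := 0) (by simp), M.ed_neg (k := 2) (by simp), add_zero, zero_add]; rfl
    · rw [M.ed_neg (k := 0) (by simp), M.ed_neg (k := 1) (by simp), zero_add, zero_add]; rfl
  refine ⟨fun x => σ x = σ (a 0), rfl, fun k => ?_, fun k x h1 h2 => ?_⟩
  · have := e k (a k)
    rw [M.ed_pos rfl (Or.inl rfl)] at this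
    exact (eq_iff2 _ _ _).2 this
  · have := e k x
    rw [M.ed_neg (by simp [h1, h2])] at this
    exact (eq_iff2 _ _ _).1 this

end Tri

end Pool.Agent.P.MP_e6b138_co
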