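import Pool.Agent.P.MP_e6b138_co.Side

/-! F5. A minimal counterexample has no parallel edges. -/

set_option autoImplicit false

namespace Pool.Agent.P.MP_e6b138_co

namespace Tri

variable {T : Type} {M : Tri T}

theorem Good.perm {K : ℕ} {c : Fin 3 → T → Fin K} (h : M.Good K c) (π : Equiv.Perm (Fin K)) :
    M.Good K fun k t => π (c k t) :=
  ⟨fun k i t hi => congrArg π (h.inv k i t hi), fun i j t hij e => h.tri i j t hij (π.injective e),
    fun k t hs e => h.diag k t hs (π.injective e)⟩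

/-- Colourings of the two sides of a cut are put together. -/
theorem good_of_sides {K : ℕ} (X : T → Prop) {M1 M2 : Tri T} {c1 c2 : Fin 3 → T → Fin K}
    (g1 : M1.Good K c1) (g2 : M2.Good K c2)
    (a1 : ∀ l x, X x → X (M.s l x) → M1.s l x = M.s l x)
    (a2 : ∀ l x, ¬ X x → ¬ X (M.s l x) → M2.s l x = M.s l x)
    (b1 : ∀ l x y, X x → X y → M1.same l x y → M.same l x y)
    (b2 : ∀ l x y, ¬ X x → ¬ X y → M2.same l x y → M.same l x y)
    (d : ∀ l x, X x → ¬ X (M.s l x) →
      (∀ m, l ≠ m → c2 m (M.s l x) = c1 m x) ∧ c2 l (M.s l x) ≠ c1 l x) :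
    ∃ c, M.Good K c := by
  classical
  refine ⟨fun k x => if X x then c1 k x else c2 k x, fun k i x hi => ?_, fun i j x hij => ?_,
    fun k x hs => ?_⟩
  · by_cases h1 : X x <;> by_cases h2 : X (M.s i x) <;> simp only [h1, h2, if_true, if_false]
    · rw [← a1 i x h1 h2, g1.inv k i x hi]
    · exact (d i x h1 h2).1 k hi
    · have := (d i _ h2 (by rwa [M.invol])).1 k hi
      rw [M.invol] at this
      exact this.symm
    · rw [← a2 i x h1 h2, g2.inv k i x hi]
  · by_cases h1 : X x <;> simp only [h1, if_true, if_false]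
    · exact g1.tri i j x hij
    · exact g2.tri i j x hij
  · by_cases h1 : X x <;> by_cases h2 : X (M.s k x) <;> simp only [h1, h2, if_true, if_false]
    · have := g1.diag k x (by rw [a1 k x h1 h2]; exact fun h => hs (b1 k _ _ h1 h2 h))
      rwa [a1 k x h1 h2] at this
    · exact (d k x h1 h2).2.symm
    · have := (d k _ h2 (by rwa [M.invol])).2
      rwa [M.invol] at this
    · have := g2.diag k x (by rw [a2 k x h1 h2]; exact fun h => hs (b2 k _ _ h1 h2 h))
      rwa [a2 k x h1 h2] at this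

/-- `X` is one side of the cut along the parallel `k`-edges of `t` and `v`. -/
structure Cut2 (M : Tri T) (k : Fin 3) (t v : T) (X : T → Prop) : Prop where
  ht : X t
  hv : X v
  nt : ¬ X (M.s k t)
  nv : ¬ X (M.s k v)
  col : M.col v = !M.col t
  cl : ∀ l x, l ≠ k → X x → X (M.s l x)
  clk : ∀ x, x ≠ t → x ≠ v → X x → X (M.s k x)
  sm : ∀ l, l ≠ k → M.same l t v

namespace Cut2

variable {k : Fin 3} {t v : T} {X : T → Prop}

theorem symm (h : M.Cut2 k t v X) : M.Cut2 k (M.s k t) (M.s k v) fun x => ¬ X x where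
  ht := h.nt
  hv := h.nv
  nt := by rw [M.invol]; exact not_not.2 h.ht
  nv := by rw [M.invol]; exact not_not.2 h.hv
  col := by rw [M.flip, M.flip, h.col]
  cl := fun l x hl hx hs => hx (M.invol l x ▸ h.cl l _ hl hs)
  clk := fun x h1 h2 hx hs => hx (M.invol k x ▸ h.clk _ (fun e => h1 (M.s_eq_iff.1 e))
    (fun e => h2 (M.s_eq_iff.1 e)) hs)
  sm := fun l hl => ((same.step' hl.symm t).trans (h.sm l hl)).tail hl.symm

theorem ne (h : M.Cut2 k t v X) : v ≠ t := M.ne_of_col h.col

theorem exit (h : M.Cut2 k t v X) {l : Fin 3} {x : T} (h1 : X x) (h2 : ¬ X (M.s l x)) :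
    l = k ∧ (x = t ∨ x = v) := by
  by_cases hl : l = k
  · subst hl
    by_contra hc
    simp only [true_and, not_or] at hc
    exact h2 (h.clk x hc.1 hc.2 h1)
  · exact (h2 (h.cl l x hl h1)).elim

open Classical in
/-- The new reflections. -/
noncomputable def gs (M : Tri T) (k : Fin 3) (t v : T) (X : T → Prop) (l : Fin 3) (x : T) : T :=
  if X x then (if X (M.s l x) then M.s l x else if x = t then v else t) else M.s (k + 1) x

theorem gs_in {l : Fin 3} {x : T} (h1 : X x) (h2 : X (M.s l x)) : gs M k t v X l x = M.s l x := by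
  simp only [gs, h1, h2, if_true]

theorem gs_out {l : Fin 3} {x : T} (h1 : ¬ X x) : gs M k t v X l x = M.s (k + 1) x := by
  simp only [gs, h1, if_false]

theorem gs_t (h : M.Cut2 k t v X) : gs M k t v X k t = v := by
  simp only [gs, h.ht, h.nt, if_true, if_false]

theorem gs_v (h : M.Cut2 k t v X) : gs M k t v X k v = t := by
  simp only [gs, h.hv, h.nv, h.ne, if_true, if_false]

/-- The side `X` closed up, the other side replaced by trivial components. -/
noncomputable def glue (h : M.Cut2 k t v X) : Tri T where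
  s := gs M k t v X
  col := M.col
  invol := by
    intro l x
    by_cases h1 : X x
    · by_cases h2 : X (M.s l x)
      · rw [gs_in h1 h2, gs_in h2 (by rwa [M.invol]), M.invol]
      · obtain ⟨rfl, rfl | rfl⟩ := h.exit h1 h2
        · rw [h.gs_t, h.gs_v]
        · rw [h.gs_v, h.gs_t]
    · rw [gs_out h1, gs_out (h.symm.cl _ _ (succ_ne k).1 h1), M.invol]
  flip := by
    intro l x
    by_cases h1 : X x
    · by_cases h2 : X (M.s l x)
      · rw [gs_in h1 h2, M.flip]
      · obtain ⟨rfl, rfl | rfl⟩ := h.exit h1 h2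
        · rw [h.gs_t, h.col]
        · rw [h.gs_v, h.col, Bool.not_not]
    · rw [gs_out h1, M.flip]

theorem glue_s (h : M.Cut2 k t v X) : h.glue.s = gs M k t v X := rfl

theorem step (h : M.Cut2 k t v X) {l m : Fin 3} {x : T} (hl : l ≠ m) (h1 : X x) :
    X (h.glue.s l x) ∧ M.same m x (h.glue.s l x) := by
  rw [glue_s]
  by_cases h2 : X (M.s l x)
  · rw [gs_in h1 h2]
    exact ⟨h2, same.step hl x⟩
  · obtain ⟨rfl, rfl | rfl⟩ := h.exit h1 h2
    · rw [h.gs_t]
      exact ⟨h.hv, h.sm m hl.symm⟩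
    · rw [h.gs_v]
      exact ⟨h.ht, (h.sm m hl.symm).symm⟩

theorem same_of (h : M.Cut2 k t v X) {m : Fin 3} {x y : T} (h1 : X x) (h2 : h.glue.same m x y) :
    M.same m x y :=
  (same.ind (p := fun y => X y ∧ M.same m x y) ⟨h1, same.refl m x⟩
    (fun _ _ hi _ ih => ⟨(h.step hi ih.1).1, ih.2.trans (h.step hi ih.1).2⟩) h2).2

theorem planar (h : M.Cut2 k t v X) (hM : M.Planar) : h.glue.Planar := by
  classical
  refine planar_of_off (fun x => ¬ X x) (fun x hx i j => ?_) (fun x i hx => ?_) fun f f1 f2 => ?_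
  · rw [glue_s, gs_out hx, gs_out hx]
  · rw [glue_s, gs_out hx]
    exact h.symm.cl _ _ (succ_ne k).1 hx
  · rw [glue_s] at f1
    have key : ∀ l x, X x → ¬ X (M.s l x) → f l t = f l x := by
      intro l x h1 h2
      obtain ⟨rfl, rfl | rfl⟩ := h.exit h1 h2
      · rfl
      · rw [← f1 l x, h.gs_v]
    obtain ⟨a, a1, a2⟩ := hM (fun l x => if X x then f l x else f l t)
      (fun l x => by
        by_cases h1 : X x <;> by_cases h2 : X (M.s l x) <;> simp only [h1, h2, if_true, if_false]
        · rw [← gs_in (k := k) (t := t) (v := v) h1 h2, f1]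
        · exact key l x h1 h2
        · exact (key l _ h2 (by rwa [M.invol])).symm)
      (fun x => by
        by_cases h1 : X x <;> simp only [h1, if_true, if_false, f2])
    refine ⟨a, fun m l x hl hx => a1.eq (h.step hl (not_not.1 hx)).2, fun m x hx => ?_⟩
    simpa only [not_not.1 hx, if_true] using a2 m x

theorem mu_lt [Fintype T] (h : M.Cut2 k t v X) (ht : ¬ M.theta t) : h.glue.mu < M.mu := by
  refine Tri.mu_lt (t := M.s k t) (fun x hx i j => ?_) (fun a => ht a.of_s) fun i j => ?_
  · rw [glue_s]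
    by_cases h1 : X x
    · have : ∀ l, X (M.s l x) := fun l => hx (k + 1) l ▸ h.cl _ x (succ_ne k).1 h1
      rw [gs_in h1 (this i), gs_in h1 (this j), hx i j]
    · rw [gs_out h1, gs_out h1]
  · rw [glue_s, gs_out h.nt, gs_out h.nt]

theorem good [Fintype T] {K : ℕ} (h : M.Cut2 k t v X) (hM : M.Minimal K) (hK : 5 ≤ K)
    (ht : ¬ M.theta t) : False := by
  obtain ⟨c1, g1⟩ := hM.min _ (h.planar hM.planar) (h.mu_lt ht)
  obtain ⟨c2, g2⟩ := hM.min _ (h.symm.planar hM.planar) (h.symm.mu_lt fun a => ht a.of_s)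
  have e1 : ∀ m, k ≠ m → c1 m v = c1 m t := fun m hm => by
    rw [← g1.inv m k t hm, glue_s, h.gs_t]
  have e2 : ∀ m, k ≠ m → c2 m (M.s k v) = c2 m (M.s k t) := fun m hm => by
    rw [← g2.inv m k (M.s k t) hm, glue_s, h.symm.gs_t]
  obtain ⟨π, p1, p2⟩ := exists_perm_match (ι := {m : Fin 3 // m ≠ k})
    (fun m => c2 m.1 (M.s k t)) (fun m => c1 m.1 t)
    (fun a b e => Subtype.ext (by_contra fun hne => g2.tri _ _ _ hne e))
    (fun a b e => Subtype.ext (by_contra fun hne => g1.tri _ _ _ hne e))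
    [(c2 k (M.s k t), c1 k t), (c2 k (M.s k v), c1 k v)]
    (by
      intro e he m
      simp only [List.mem_cons, List.not_mem_nil, or_false] at he
      rcases he with rfl | rfl
      · exact g2.tri _ _ _ m.2.symm
      · rw [← e2 _ m.2.symm]
        exact g2.tri _ _ _ m.2.symm)
    (by simp; omega)
  refine hM.bad (good_of_sides X g1 (g2.perm π) (fun l x a b => gs_in a b)
    (fun l x a b => gs_in (X := fun x => ¬ X x) a b) (fun l x y a _ => h.same_of a)
    (fun l x y a _ => h.symm.same_of a) fun l x a b => ?_)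
  obtain ⟨rfl, rfl | rfl⟩ := h.exit a b
  · exact ⟨fun m hm => p1 ⟨m, hm.symm⟩, p2 (_, _) (by simp)⟩
  · exact ⟨fun m hm => by rw [e2 m hm, e1 m hm]; exact p1 ⟨m, hm.symm⟩, p2 (_, _) (by simp)⟩

end Cut2

variable [Fintype T] {K : ℕ}

/-- F5. No parallel edges. -/
theorem Minimal.simple (hM : M.Minimal K) (hK : 5 ≤ K) {i j : Fin 3} (hij : i ≠ j) {t u : T}
    (ht : ¬ M.theta t) (h1 : M.same i t u) (h2 : M.same j t u) (hc : M.col u = M.col t) :
    t = u := by
  by_contra hne
  obtain ⟨k, hki, hkj, hk⟩ := third hij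
  obtain ⟨X, x1, x2, x3, x4, x5⟩ := hM.planar.side2 hij hki.symm hkj.symm h1 h2 hc hne
  have n1 : ∀ x, M.col x = !M.col t → x ≠ t ∧ x ≠ u := fun x hx =>
    ⟨M.ne_of_col hx, M.ne_of_col (hc ▸ hx)⟩
  have hv : X (M.s k u) := by
    rcases balance X i k x1 x2 with ⟨x, a, b, c⟩ | ⟨x, a, -, c⟩
    · by_contra hv
      refine c (x5 x (n1 x b).1 ?_ (n1 x b).2 ?_ a)
      · rintro rfl; exact x2 a
      · rintro rfl; exact hv a
    · exact (c (x4 i x hki.symm a)).elim
  have hu : ¬ X u := fun a => x3.1 a hv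
  refine Cut2.good (k := k) (t := t) (v := M.s k u) (X := X)
    ⟨x1, hv, x2, by rwa [M.invol], by rw [M.flip, hc], x4, fun x a b c => ?_, fun l hl => ?_⟩
    hM hK ht
  · refine x5 x a ?_ ?_ b c
    · rintro rfl; exact x2 c
    · rintro rfl; exact hu c
  · rcases hk l with rfl | rfl | rfl
    · exact h1.tail hl.symm
    · exact h2.tail hl.symm
    · exact absurd rfl hl

/-- The three neighbours of a triangle are different. -/
theorem Minimal.s_ne_s (hM : M.Minimal K) (hK : 5 ≤ K) {i j : Fin 3} (hij : i ≠ j) {t : T}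
    (ht : ¬ M.theta t) : M.s i t ≠ M.s j t := by
  intro e
  obtain ⟨k, hki, hkj, hk⟩ := third hij
  have h := hM.simple hK hij ht (u := M.s k (M.s i t))
    (by rw [e]; exact (same.step hij.symm t).tail hki) ((same.step hij t).tail hkj) (M.col_ss _ _ _)
  have e' : M.s k t = M.s i t := by rw [M.s_eq_iff]; exact h
  apply ht
  intro a b
  have : ∀ a, M.s a t = M.s i t := fun a => by
    rcases hk a with rfl | rfl | rfl
    · rfl
    · exact e.symm
    · exact e'
  rw [this, this b]

/-- The two apexes of an edge are different. -/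
theorem Minimal.not_same (hM : M.Minimal K) (hK : 5 ≤ K) (k : Fin 3) {t : T} (ht : ¬ M.theta t) :
    ¬ M.same k t (M.s k t) := by
  intro h
  obtain ⟨a, b, c⟩ := succ_ne k
  have := hM.simple hK a.symm ht (u := M.s (k + 2) (M.s k t)) (h.tail b)
    ((same.step a.symm t).tail c.symm) (M.col_ss _ _ _)
  exact hM.s_ne_s hK b ht (M.s_eq_iff.2 this)

/-- Two triangles with two common vertices share the edge. -/
theorem Minimal.link (hM : M.Minimal K) (hK : 5 ≤ K) {i j k : Fin 3} (hij : i ≠ j) (hki : k ≠ i)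
    (hkj : k ≠ j) {t u : T} (ht : ¬ M.theta t) (h1 : M.same i t u) (h2 : M.same j t u) :
    u = t ∨ u = M.s k t := by
  by_cases hc : M.col u = M.col t
  · exact Or.inl (hM.simple hK hij ht h1 h2 hc).symm
  · refine Or.inr (M.s_eq_iff.1 (hM.simple hK hij ht (h1.tail hki) (h2.tail hkj) ?_).symm)
    rw [M.flip]
    revert hc
    cases M.col u <;> cases M.col t <;> simp

theorem Minimal.four_le_deg (hM : M.Minimal K) (hK : 5 ≤ K) (k : Fin 3) {t : T}
    (ht : ¬ M.theta t) : 4 ≤ M.deg k t := by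
  classical
  obtain ⟨a, b, c⟩ := succ_ne k
  have n1 := hM.s_ne_s hK c ht
  have n2 : t ≠ M.s (k + 1) (M.s (k + 2) t) := fun e => n1 (M.s_eq_iff.2 e)
  have hc : ({t, M.s (k + 1) (M.s (k + 2) t), M.s (k + 1) t, M.s (k + 2) t} : Finset T).card = 4 := by
    rw [Finset.card_insert_of_notMem, Finset.card_insert_of_notMem, Finset.card_pair n1]
    · simp only [Finset.mem_insert, Finset.mem_singleton, not_or]
      exact ⟨fun e => M.s_ne _ _ (M.s_inj _ e), M.s_ne _ _⟩
    · simp only [Finset.mem_insert, Finset.mem_singleton, not_or]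
      exact ⟨n2, (M.s_ne _ _).symm, (M.s_ne _ _).symm⟩
  rw [← hc]
  unfold deg
  refine Finset.card_le_card fun x hx => ?_
  simp only [Finset.mem_insert, Finset.mem_singleton] at hx
  simp only [Finset.mem_filter, Finset.mem_univ, true_and]
  rcases hx with rfl | rfl | rfl | rfl
  · exact same.refl k _
  · exact (same.step b t).tail a
  · exact same.step a t
  · exact same.step b t

end Tri

end Pool.Agent.P.MP_e6b138_co
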